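import Pool.Agent.TWG.SUM
import Pool.Agent.TWB.All4
import Pool.Agent.TWB.TEI
import Pool.Agent.TWB.DPL
import Pool.Agent.TWT.DefsU

/-!
# TWG, module SYMA (helper19): `S_SYMA`, from the rigidity theorem (all large levels) and the double sum
-/

set_option autoImplicit false

open WeierstrassCurve Polynomial NumberField IsDedekindDomain

namespace Pool.Agent.TWG

open _root_.MU3 Pool.Agent.MU3A Pool.Agent.MU3B Pool.Agent.MU3F Pool.Agent.MUX Pool.Agent.MUXH
  Pool.Agent.MuSym OnePoint Pool.Agent.TWT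
open Pool.Agent.MUXHY (toCQ toEI toLI nI_eq cjI_eq PhiI_eq PP N0X)
open scoped ComplexConjugate

noncomputable section

namespace Syma

lemma toH {p : ℕ} {A B : ℤ} {P : Ideal (OO A B)} {V : ValuationSubring ℂ} {f : ℕ}
    (hS : SetG p A B P V f) : SetH p A B P V f where
  cq := hS.cq
  pp := hS.pp
  hP := hS.hP
  hV := hS.hV
  f0 := hS.f0
  fp := hS.fp
  fD := (Dvd.intro_left 2 rfl).trans hS.fD

lemma vint {p : ℕ} {A B : ℤ} {P : Ideal (OO A B)} {V : ValuationSubring ℂ} {f : ℕ}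
    (hS : SetG p A B P V f) (n : ℤ) (h : ¬ (p : ℤ) ∣ n) : V.valuation (n : ℂ) = 1 :=
  (g_VAL p A B P V f (toH hS)).2.2.2.2.2.1 n h

/-- `w (-1) = -1` -/
lemma w_neg {p : ℕ} {A B : ℤ} {P : Ideal (OO A B)} {V : ValuationSubring ℂ} {f : ℕ}
    (hS : SetG p A B P V f) {w : OO A B → ℂ} (hw : TeiP p P V w) : w (-1) = -1 := by
  have h1 : w (-1) ^ 2 = 1 := by
    rw [pow_two, ← hw.mul]
    simp [hw.one]
  have h2 : (w (-1) - 1) * (w (-1) + 1) = 0 := by linear_combination h1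
  rcases mul_eq_zero.1 h2 with h3 | h3
  · exfalso
    have h4 := hw.int (-1)
    have h5 : w (((-1 : ℤ) : ℤ) : OO A B) = 1 := by
      rw [show (((-1 : ℤ) : ℤ) : OO A B) = -1 by push_cast; rfl]
      exact sub_eq_zero.1 h3
    rw [h5] at h4
    have h6 : (1 : ℂ) - ((-1 : ℤ) : ℂ) = ((2 : ℤ) : ℂ) := by push_cast; ring
    rw [h6, vint hS 2 (fun hd => by
      have := Int.le_of_dvd (by norm_num) hd
      have := hS.p5
      omega)] at h4
    have h7 := (g_VAL p A B P V f (toH hS)).2.1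
    exact absurd (lt_of_le_of_lt h4 h7) (lt_irrefl _)
  · exact eq_neg_of_add_eq_zero_left h3

/-- the character `epT eta w` is odd, modulo `f cjI P` -/
theorem ei {p : ℕ} {A B : ℤ} {P : Ideal (OO A B)} {V : ValuationSubring ℂ} {f : ℕ}
    (hS : SetG p A B P V f) {w : OO A B → ℂ} (hw : TeiP p P V w) {n : ℕ} {ι : Type}
    {R : Reps A B n ι} {kp : ι → ℂ} {eta : OO A B → ℂ} (hch : ChD p f R kp eta) :
    IsEI (idl f * cjI P) (epT eta w) := by
  obtain ⟨-, hmax, -, -, -, -, -, -, -, -⟩ := g_IDE p A B P V f (toH hS)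
  have hst1 : star (1 : OO A B) = 1 := star_one _
  have hcmax : (cjI P).IsMaximal := by
    refine Ideal.comap_isMaximal_of_surjective (starRingEnd (OO A B)) ?_
    intro x
    exact ⟨star x, star_star x⟩
  have hcop : ∀ x : OO A B, w (star x) ≠ 0 ↔ IsCoprime (sp x) (cjI P) := by
    intro x
    rw [Ne, hw.zero]
    constructor
    · intro h
      rw [Ideal.isCoprime_iff_sup_eq]
      refine hcmax.1.2 _ ?_
      rw [lt_iff_le_not_ge]
      refine ⟨le_sup_right, fun h1 => h ?_⟩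
      exact h1 (Ideal.mem_sup_left (Ideal.mem_span_singleton_self x))
    · intro h h1
      rw [Ideal.isCoprime_iff_sup_eq] at h
      have h2 : sp x ≤ cjI P := (Ideal.span_singleton_le_iff_mem _).2 h1
      rw [sup_eq_right.2 h2] at h
      exact hcmax.ne_top h
  constructor
  · show eta 1 * (w (star 1))⁻¹ = 1
    rw [hst1, hch.one, hw.one, inv_one, mul_one]
  · intro x y
    show eta (x * y) * (w (star (x * y)))⁻¹ = eta x * (w (star x))⁻¹ * (eta y * (w (star y))⁻¹)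
    rw [hch.mul, star_mul', hw.mul, mul_inv]
    ring
  · intro x y h
    show eta x * (w (star x))⁻¹ = eta y * (w (star y))⁻¹
    have h1 : x - y ∈ (idl f : Ideal (OO A B)) := Ideal.mul_le_left h
    have h2 : x - y ∈ cjI P := Ideal.mul_le_right h
    have h3 : star (x - y) ∈ P := (MUXHY.Ide.mem_cjI P (x - y)).1 h2
    rw [star_sub] at h3
    rw [hch.per x y h1, hw.per (star x) (star y) h3]
  · intro x
    show eta x * (w (star x))⁻¹ ≠ 0 ↔ _
    have h1 : (w (star x))⁻¹ ≠ 0 ↔ w (star x) ≠ 0 := by rw [Ne, Ne, inv_eq_zero]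
    rw [mul_ne_zero_iff, h1, hch.supp, hcop, ← IsCoprime.mul_right_iff]
  · show eta (-1) * (w (star (-1)))⁻¹ = -1
    rw [hch.neg, star_neg, hst1, w_neg hS hw]
    norm_num

/-- the inner sum is `SST` -/
theorem sst {p : ℕ} {A B : ℤ} {P : Ideal (OO A B)} {V : ValuationSubring ℂ} {f : ℕ}
    (hS : SetG p A B P V f) {w : OO A B → ℂ} (hw : TeiP p P V w) {ι : Type} [Fintype ι]
    (R : Reps A B (p * f) ι) {kp : ι → ℂ} {eta : OO A B → ℂ}
    (m q : ℕ) (ψ : DirichletCharacter ℂ q) (wD : DirichletCharacter ℂ p)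
    (hwD : ∀ c : ℤ, wD (c : ZMod p) = (w (c : OO A B))⁻¹) (hm : m ≠ 0) :
    ∑ i, kp i * (w ((MUX.nI (R.b i) : ℕ) : OO A B))⁻¹ * muX R i * sumMod (m : OO A B) (fun x =>
        epT eta w x * ψ⁻¹⁻¹ ((nm x * MUX.nI (R.b i) : ℤ) : ZMod q) *
          wD⁻¹ ((nm x * MUX.nI (R.b i) : ℤ) : ZMod p) * ee (R.L i) (pt R m i x)) =
      SST R m (thT R kp eta ψ) w := by
  have hQ := toCQ hS.cq
  obtain ⟨hal, hx, hz, hfin, hdom⟩ := MUXF.xf_ALG A B hQ
  have hmC : (m : ℂ) ≠ 0 := by exact_mod_cast hm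
  have hmO : ((m : ℕ) : OO A B) ≠ 0 := by
    intro h0
    have h9 := ((hx _).1).2 h0
    have h10 := (hz m).1
    rw [Int.cast_natCast, Int.cast_natCast] at h10
    rw [h10] at h9
    exact hmC h9
  have hspan : Ideal.span {((m : ℕ) : OO A B)} ≠ ⊥ := by
    rw [Ne, Ideal.span_singleton_eq_bot]
    exact hmO
  have hF := hfin _ hspan
  have _nz : NeZero p := ⟨hS.pp.ne_zero⟩
  -- `wD⁻¹` on the integers
  have hwi : ∀ c : ℤ, wD⁻¹ (c : ZMod p) = w (c : OO A B) := by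
    intro c
    have h1 : wD⁻¹ (c : ZMod p) = (wD (c : ZMod p))⁻¹ := by
      rw [MulChar.inv_apply_eq_inv']
    rw [h1, hwD, inv_inv]
  unfold SST
  refine Finset.sum_congr rfl fun i _ => ?_
  have hwn : w ((MUX.nI (R.b i) : ℕ) : OO A B) ≠ 0 := by
    intro h0
    rw [hw.zero] at h0
    have h1 : ¬ (p : ℤ) ∣ ((MUX.nI (R.b i) : ℕ) : ℤ) := by
      intro hd
      have h2 := R.cop i
      have h3 : p ∣ MUX.nI (R.b i) := by exact_mod_cast hd
      have h4 : p ∣ 1 := by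
        rw [← Nat.Coprime.gcd_eq_one h2]
        exact Nat.dvd_gcd h3 (dvd_mul_right p f)
      exact hS.pp.one_lt.ne' (Nat.dvd_one.1 h4)
    have h5 := vint hS _ h1
    have h6 := ((g_VAL p A B P V f (toH hS)).2.2.2.1 ((MUX.nI (R.b i) : ℕ) : OO A B)).1 (by
      have := (hz ((MUX.nI (R.b i) : ℕ) : ℤ)).1
      rw [Int.cast_natCast] at this
      rw [this]
      exact h5)
    exact h6 h0
  rw [mul_assoc, mul_comm (kp i * _), mul_assoc, mul_comm (sumMod _ _), ← Pool.Agent.MUXF.F5x.sm_mul]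
  congr 2
  funext x
  have hnm : ((nm x * MUX.nI (R.b i) : ℤ) : OO A B) =
      x * star x * ((MUX.nI (R.b i) : ℕ) : OO A B) := by
    rw [(hx x).2.2.2.2.1]
    push_cast
    ring
  rw [inv_inv, hwi, hnm, hw.mul, hw.mul]
  unfold epT thT oneT
  field_simp

end Syma

open Syma in
/-- (SYMA) -/
theorem t_SYMA : S_SYMA := by
  intro l g h hG p A B P V f hS hlf hTor ι _ R hGR w hw J _ kp eta hch
  have hQ := toCQ hS.cq
  obtain ⟨hal, hx, hz, hfin, hdom⟩ := MUXF.xf_ALG A B hQ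
  obtain ⟨hPb, hmax, -, -, hgb, hpf, -, -, -, -⟩ := g_IDE p A B P V f (toH hS)
  obtain ⟨-, vp, -, -, -, vn, vr, vf, -, -, -⟩ := g_VAL p A B P V f (toH hS)
  have hp := hS.pp
  have _nzp : NeZero p := ⟨hp.ne_zero⟩
  have hl : l.Prime := by
    rcases hG with ⟨h1, -, -⟩ | ⟨h1, -, -⟩ <;> rw [h1]
    · exact Nat.prime_three
    · exact Nat.prime_two
  obtain ⟨hn, al, hh, hPal⟩ := MUXHY.y_CLN A B hS.cq (p * f) ι inferInstance R P hPb
  obtain ⟨wD, hwD, hwD1⟩ := Pool.Agent.TWB.t_TED p A B P V hS.cq hp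
    (lt_of_lt_of_le (by norm_num) hS.p5) hS.hP hS.hV w hw
  have hne : ∀ j, IsEI (idl f * cjI P) (epT (eta j) w) := fun j => ei hS hw (hch j)
  -- the weights
  have hwn : ∀ i, w ((MUX.nI (R.b i) : ℕ) : OO A B) ^ (p - 1) = 1 := by
    intro i
    apply hw.root
    have h1 : ¬ (p : ℤ) ∣ ((MUX.nI (R.b i) : ℕ) : ℤ) := by
      intro hd
      have h2 := R.cop i
      have h3 : p ∣ MUX.nI (R.b i) := by exact_mod_cast hd
      have h4 : p ∣ 1 := by
        rw [← Nat.Coprime.gcd_eq_one h2]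
        exact Nat.dvd_gcd h3 (dvd_mul_right p f)
      exact hS.pp.one_lt.ne' (Nat.dvd_one.1 h4)
    have h5 := vint hS _ h1
    exact ((g_VAL p A B P V f (toH hS)).2.2.2.1 ((MUX.nI (R.b i) : ℕ) : OO A B)).1 (by
      have := (hz ((MUX.nI (R.b i) : ℕ) : ℤ)).1
      rw [Int.cast_natCast] at this
      rw [this]
      exact h5)
  have hp1 : p - 1 ≠ 0 := by
    have := hS.p5
    omega
  have hroot : ∀ j i, ∃ r : ℕ, r ≠ 0 ∧
      (kp j i * (w ((MUX.nI (R.b i) : ℕ) : OO A B))⁻¹) ^ r = 1 := by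
    intro j i
    obtain ⟨r, hr, h1, -⟩ := (hch j).fin
    refine ⟨r * (p - 1), mul_ne_zero (fun h0 => hr (h0 ▸ dvd_zero p)) hp1, ?_⟩
    rw [mul_pow, pow_mul, h1, one_pow, inv_pow, mul_comm r, pow_mul, hwn, one_pow, inv_one,
      mul_one]
  obtain ⟨n0, hn0⟩ := Pool.Agent.TWB.a_TWB4 l g h hG V p hS.p5 J (N0X A B f) 1 (fun _ => hn)
    (fun j => epT (eta j) w al * conj (emb al)) (fun j => nuX (epT (eta j) w))
    (fun j => PP R P (epT (eta j) w) (fun i => kp j i * (w ((MUX.nI (R.b i) : ℕ) : OO A B))⁻¹))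
    (fun j => t_HYP p A B P V f (toH hS) ι R (hGR.kap _) (hGR.dis _) _ (hne j) _
      (fun i => by
        obtain ⟨r, hr, h1⟩ := hroot j i
        exact IsAlgebraic.of_pow (Nat.pos_of_ne_zero hr) (by rw [h1]; exact isAlgebraic_one))
      (fun i => by
        obtain ⟨r, hr, h1⟩ := hroot j i
        exact vr r _ hr h1) (-1) (Or.inr rfl) hn al hh hPal)
    (fun j x => Pool.Agent.TWB.t_DPP A B hS.cq (p * f) ι R P hPb (idl f * cjI P) _ hgb (hne j) l
      hl (Ideal.mul_le_left.trans (by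
        rw [Ideal.span_singleton_le_span_singleton]
        obtain ⟨k, hk⟩ := hlf
        refine ⟨(k : OO A B), ?_⟩
        rw [hk]
        push_cast
        rfl)) _ 0 x) wD hwD1
  refine ⟨max n0 2, fun n hn' j ψ hψ1 hψ2 => ?_⟩
  have hn2 : 2 ≤ n := (le_max_right _ _).trans hn'
  have hnn : n0 ≤ n := (le_max_left _ _).trans hn'
  have _nzl : NeZero (l ^ n) := ⟨pow_ne_zero _ hl.ne_zero⟩
  have hψi1 : ψ⁻¹ (-1) = 1 := by
    rw [MulChar.inv_apply_eq_inv', hψ1, inv_one]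
  have hψi2 : ψ⁻¹ (1 + (l : ZMod (l ^ n)) ^ (n - 1)) ≠ 1 := by
    rw [MulChar.inv_apply_eq_inv']
    intro h1
    exact hψ2 (inv_eq_one.1 h1)
  have hv := hn0 n hnn j ψ⁻¹ hψi1 hψi2
  have hprim := Gau.prim hl hn2 ψ⁻¹ hψi2
  have hwDne : wD ≠ 1 := by
    intro h1
    rw [h1] at hwD1
    rw [MulChar.one_apply (isUnit_one.neg)] at hwD1
    norm_num at hwD1
  have hprim2 := Gau.prim1 hp wD hwDne
  have hm : f * l ^ n * p ≠ 0 :=
    mul_ne_zero (mul_ne_zero hS.f0 (pow_ne_zero _ hl.ne_zero)) hp.ne_zero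
  have hmg : ((f * l ^ n * p : ℕ) : OO A B) ∈ (idl f * cjI P : Ideal (OO A B)) := by
    have : ((f * l ^ n * p : ℕ) : OO A B) = ((l ^ n : ℕ) : OO A B) * ((p * f : ℕ) : OO A B) := by
      push_cast
      ring
    rw [this]
    exact Ideal.mul_mem_left _ _ hpf
  have hcopm : ∀ i, (MUX.nI (R.b i)).Coprime (f * l ^ n * p) := by
    intro i
    have h1 := R.cop i
    have h2 : (MUX.nI (R.b i)).Coprime p := Nat.Coprime.coprime_mul_right_right h1
    have h3 : (MUX.nI (R.b i)).Coprime f := Nat.Coprime.coprime_mul_left_right h1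
    have h4 : (MUX.nI (R.b i)).Coprime l := Nat.Coprime.coprime_dvd_right hlf h3
    exact Nat.Coprime.mul_right (Nat.Coprime.mul_right h3 (Nat.Coprime.pow_right n h4)) h2
  have hsum := t_SUM A B hS.cq (p * f) ι R P (idl f * cjI P) (epT (eta j) w) (hne j)
    (fun i => kp j i * (w ((MUX.nI (R.b i) : ℕ) : OO A B))⁻¹) (f * l ^ n * p) (l ^ n) p hm hmg
    (by rw [mul_assoc]; exact Dvd.intro_left f rfl) hcopm ψ⁻¹ hprim wD hprim2
  rw [sst hS hw R (f * l ^ n * p) (l ^ n) ψ wD hwD hm] at hsum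
  have hcast : ∀ b c : ℕ, (((b : ℚ) / ((l ^ n : ℕ) : ℚ) + (c : ℚ) / p : ℚ) : OnePoint ℚ) =
      (((b : ℚ) / (l : ℚ) ^ n + (c : ℚ) / p : ℚ) : OnePoint ℚ) := by
    intro b c
    push_cast
    rfl
  simp only [hcast] at hsum
  rw [hsum] at hv
  -- valuations
  set S : ℂ := SST R (f * l ^ n * p) (thT R (kp j) (eta j) ψ) w with hSd
  have hlp : ¬ (p : ℤ) ∣ (l : ℤ) := by
    intro hd
    have h1 : p ∣ l := by exact_mod_cast hd
    exact hS.fp (h1.trans hlf)
  have vl : V.valuation (l : ℂ) = 1 := by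
    have := vn l hlp
    rwa [Int.cast_natCast] at this
  have v2 : V.valuation (2 : ℂ) = 1 := by
    have := vn 2 (fun hd => by
      have := Int.le_of_dvd (by norm_num) hd
      have := hS.p5
      omega)
    rwa [show ((2 : ℤ) : ℂ) = 2 by norm_num] at this
  have hv2m : V.valuation (2 * ((f * l ^ n * p : ℕ) : ℂ)) = V.valuation (p : ℂ) := by
    push_cast
    rw [map_mul, map_mul, map_mul, map_pow, v2, vf, vl, one_pow, one_mul, one_mul, one_mul]
  have hg1 : V.valuation (gaussSum ψ⁻¹ ZMod.stdAddChar) ≤ 1 := Gau.gle V ψ⁻¹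
  have hg2 : V.valuation (gaussSum wD ZMod.stdAddChar) ^ (p - 1) ≤ V.valuation (p : ℂ) :=
    Gau.gpi V hp wD hwDne
  have hp0 : (p : ℂ) ≠ 0 := by exact_mod_cast hp.ne_zero
  have hvp0 : V.valuation (p : ℂ) ≠ 0 := (Valuation.ne_zero_iff _).2 hp0
  rw [map_mul, map_div₀, map_mul, hv2m] at hv
  have h3 : V.valuation (p : ℂ) ≤ V.valuation (gaussSum wD ZMod.stdAddChar) * V.valuation S := by
    calc V.valuation (p : ℂ) = V.valuation (p : ℂ) * 1 := (mul_one _).symm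
      _ ≤ V.valuation (p : ℂ) * (V.valuation (gaussSum ψ⁻¹ ZMod.stdAddChar) *
          V.valuation (gaussSum wD ZMod.stdAddChar) / V.valuation (p : ℂ) * V.valuation S) :=
        mul_le_mul_right hv _
      _ = V.valuation (gaussSum ψ⁻¹ ZMod.stdAddChar) *
          (V.valuation (gaussSum wD ZMod.stdAddChar) * V.valuation S) := by
        field_simp
      _ ≤ 1 * (V.valuation (gaussSum wD ZMod.stdAddChar) * V.valuation S) :=
        mul_le_mul_left hg1 _
      _ = _ := one_mul _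
  have h4 : V.valuation (p : ℂ) ^ (p - 1) ≤ V.valuation (p : ℂ) * V.valuation S ^ (p - 1) := by
    calc V.valuation (p : ℂ) ^ (p - 1) ≤
        (V.valuation (gaussSum wD ZMod.stdAddChar) * V.valuation S) ^ (p - 1) :=
          pow_le_pow_left₀ zero_le h3 _
      _ = V.valuation (gaussSum wD ZMod.stdAddChar) ^ (p - 1) * V.valuation S ^ (p - 1) :=
          mul_pow _ _ _
      _ ≤ _ := mul_le_mul_left hg2 _
  have h5 : V.valuation (p : ℂ) ^ (p - 1) = V.valuation (p : ℂ) * V.valuation (p : ℂ) ^ (p - 2) := by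
    rw [← pow_succ']
    congr 1
    have := hS.p5
    omega
  rw [h5] at h4
  exact (mul_le_mul_iff_right₀ (zero_lt_iff.2 hvp0)).1 h4

end

end Pool.Agent.TWG
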