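import Pool.Agent.TWG.HG
import Pool.Agent.MUX.ZN
import Pool.Agent.MU3.BAll
import Pool.Agent.MU3.A_SCP

/-!
# TWG (helper19): Theorem G (the symbol is not a boundary symbol modulo `V`) for every prime `p`

The proofs are those of `MUX/N_UNIT.lean`, `N_QXP.lean`, `N_GDT.lean`, `StGF.lean`; the only use of `p = 2, 3` there is the
module UNIT (`nm x = 1` implies `x = 1` or `x = -1`), which follows here from the existence of a normalised lattice.
-/

set_option autoImplicit false

namespace Pool.Agent.TWG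

open _root_.MU3 Pool.Agent.MU3A Pool.Agent.MU3B Pool.Agent.MU3Q Pool.Agent.MUX Pool.Agent.MuSym
  OnePoint UpperHalfPlane
open Pool.Agent.MUXF (Sx_ALG Sx_IDL Sx_QB Sx_BDD Sx_TSM qb)
open Pool.Agent.MUXY (cqF eiF)
open Pool.Agent.MUXN (Sg_GTHX GDat)
open scoped ComplexConjugate

noncomputable section

/-- UNIT without condition on `p`: there is a normalised lattice -/
theorem t_UNT (h : MUXF.Sx_IDL) (h' : MUXF.Sx_NIM) (hA : Sx_ALG) (A B : ℤ) (hc : MUX.CQ A B)
    (b0 : Ideal (OO A B)) (L : PeriodPair) (om : ℂ) (hL : IsNL b0 L om) :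
    (∀ x : OO A B, nm x = 1 → x = 1 ∨ x = -1) ∧
    ∀ (b : Ideal (OO A B)) (_ : b ≠ ⊥) (x : OO A B), x ∈ b → nm x = MUX.nI b → b = MUX.sp x := by
  obtain ⟨a1, a2, -, -, -⟩ := hA A B (cqF hc)
  refine ⟨fun x hx => ?_, fun b hb x hx hn => ?_⟩
  · have emul : ∀ u v : OO A B, emb (u * v) = emb u * emb v := fun u v => (a1 u v).1
    have hss : star x * x = 1 := by
      have h1 := (a2 x).2.2.2.2.1
      rw [hx, Int.cast_one] at h1
      rw [mul_comm]
      exact h1
    have hx0 : x ≠ 0 := by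
      intro h0
      rw [h0, mul_zero] at hss
      rw [h0] at hx
      have h3 : nm (0 : OO A B) = 0 := by
        unfold nm
        simp
      rw [h3] at hx
      exact absurd hx (by norm_num)
    have ex0 : emb x ≠ 0 := fun h => hx0 ((a2 x).1.1 h)
    have key : ∀ z : ℂ, z ∈ L.lattice ↔ emb x * z ∈ L.lattice := by
      intro z
      rw [hL.mem, hL.mem]
      constructor
      · rintro ⟨t, ht, rfl⟩
        exact ⟨x * t, b0.mul_mem_left _ ht, by rw [emul]; ring⟩
      · rintro ⟨t, ht, h2⟩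
        refine ⟨star x * t, b0.mul_mem_left _ ht, ?_⟩
        have h3 : emb (star x) * emb x = 1 := by
          rw [← emul, hss, ← Pool.Agent.MUXN.N_GJ.eHom_apply hc, map_one]
        rw [emul]
        linear_combination (-z) * h3 + emb (star x) * h2
    obtain ⟨-, -, g2, g3⟩ := ta_SCP L L (emb x) ex0 key
    have n1 := hL.nrm
    have hd := (b_DSC L).1
    have hg2 : L.g₂ ≠ 0 := by
      intro h0
      rw [h0] at n1
      have h3 : L.g₃ = 0 := by
        have : (-18 : ℂ) * L.g₃ = 0 := n1.symm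
        rcases mul_eq_zero.1 this with h | h
        · norm_num at h
        · exact h
      apply hd
      rw [h0, h3]
      norm_num
    have hg3 : L.g₃ ≠ 0 := by
      intro h0
      apply hg2
      rw [n1, h0, mul_zero]
    have h4 : emb x ^ 4 = 1 := by
      have := (eq_div_iff (pow_ne_zero 4 ex0)).1 g2
      exact mul_left_cancel₀ hg2 (by rw [this, mul_one])
    have h6 : emb x ^ 6 = 1 := by
      have := (eq_div_iff (pow_ne_zero 6 ex0)).1 g3
      exact mul_left_cancel₀ hg3 (by rw [this, mul_one])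
    have h2 : emb x ^ 2 = 1 := by
      have h7 : emb x ^ 6 = emb x ^ 4 * emb x ^ 2 := by ring
      rw [h4, one_mul, h6] at h7
      exact h7.symm
    have h8 : emb ((x - 1) * (x + 1)) = 0 := by
      rw [← Pool.Agent.MUXN.N_GJ.eHom_apply hc]
      rw [← Pool.Agent.MUXN.N_GJ.eHom_apply hc] at h2
      rw [map_mul, map_sub, map_add, map_one]
      linear_combination h2
    have h9 : (x - 1) * (x + 1) = 0 := (a2 _).1.1 h8
    have hdom := (hA A B (cqF hc)).2.2.2.2
    rcases mul_eq_zero.1 h9 with h10 | h10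
    · exact Or.inl (sub_eq_zero.1 h10)
    · exact Or.inr (eq_neg_of_add_eq_zero_left h10)

  · have hcq : MUXF.CQ A B := cqF hc
    have hn0 : MUX.nI b ≠ 0 := (h A B hcq b hb).1
    obtain ⟨-, h2, -, -⟩ := h' A B hcq
    have hx0 : x ≠ 0 := by
      rintro rfl
      apply hn0
      have : nm (0 : OO A B) = 0 := by
        unfold nm
        simp
      rw [this] at hn
      exact_mod_cast hn.symm
    have hle : MUX.sp x ≤ b := (Ideal.span_singleton_le_iff_mem b).2 hx
    have hcard : Nat.card (OO A B ⧸ MUX.sp x) = Nat.card (OO A B ⧸ b) := by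
      have h3 := (h2 x).resolve_right hx0
      have h4 : (nm x).natAbs = MUX.nI b := by
        rw [hn]
        simp
      exact h3.trans h4
    have : Finite (OO A B ⧸ MUX.sp x) := by
      apply Nat.finite_of_card_ne_zero
      rw [hcard]
      exact hn0
    have hbij := Function.Surjective.bijective_of_nat_card_le (Ideal.Quotient.factor_surjective hle)
      hcard.le
    apply le_antisymm _ hle
    intro y hy
    rw [← Ideal.Quotient.eq_zero_iff_mem]
    apply hbij.injective
    rw [map_zero, Ideal.Quotient.factor_mk]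
    exact Ideal.Quotient.eq_zero_iff_mem.2 hy

/-- QXP without condition on `p` -/
def Sq_QXP : Prop :=
  ∀ (A B : ℤ) (_ : MUX.CQ A B) (n : ℕ) (ι : Type) (R : Reps A B n ι)
    (g : Ideal (OO A B)) (_ : g ≠ ⊥) (e : OO A B → ℂ) (_ : IsEI g e) (r : ℕ) (_ : r ≠ 0)
    (_ : ∀ x, e x ≠ 0 → e x ^ r = 1) (i : ι),
    ∃ α : ℕ → ℂ, (∀ n, IsIntegral ℤ (α n)) ∧
      (∃ K : Subfield ℂ, NumberField K ∧ ∀ n, α n ∈ K) ∧ (i = R.i0 → α 1 = 1) ∧
      (i ≠ R.i0 → α 1 = 0) ∧ ∀ τ : ℂ, 0 < τ.im → HasSum (fun n : ℕ => α n / n *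
        Complex.exp (2 * Real.pi * Complex.I * τ) ^ n) (thetaIntI (R.b i) e τ)

open Pool.Agent.MUXN.N_QXP in
/-- the `q`-expansion of `thetaIntI` -/
theorem t_QXP (hN : MUXF.Sx_NIM) (hA : Sx_ALG) (hI : Sx_IDL) (hQB : Sx_QB) (hBD : Sx_BDD)
    (hTS : Sx_TSM) : Sq_QXP := by
  classical
  intro A B hc n ι R g hg e he r hr her i
  have hb : R.b i ≠ ⊥ := (R.nl i).b_ne
  obtain ⟨u1, u2⟩ := t_UNT hI hN hA A B hc _ _ _ (R.nl i)
  obtain ⟨a1, a2, a3, a4, -⟩ := hA A B (cqF hc)
  obtain ⟨q1, -, -⟩ := hQB A B (cqF hc) (R.b i) hb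
  have hnb : MUX.nI (R.b i) ≠ 0 := (hI A B (cqF hc) (R.b i) hb).1
  have hnbC : ((MUX.nI (R.b i) : ℕ) : ℂ) ≠ 0 := by exact_mod_cast hnb
  obtain ⟨hfin, C, hC0, hC⟩ := hBD A B (cqF hc) g e hg (eiF he)
  set b : Ideal (OO A B) := R.b i with hbdef
  set S : ℕ → Finset b := fun m => (fin_fib hc hQB b hb m).toFinset with hSdef
  have hS : ∀ (m : ℕ) (x : b), x ∈ S m ↔ (qb b (x : OO A B)).toNat = m := by
    intro m x
    rw [hSdef]
    simp
  set t : b → ℂ := fun x => e x * conj (emb (x : OO A B)) with htdef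
  have hconj : ∀ x : OO A B, conj (emb x) = emb (star x) := fun x => ((a2 x).2.2.2.2.2.1).symm
  have hnmneg : ∀ x : OO A B, nm (-x) = nm x := by
    intro x
    unfold nm
    have h1 : (-x).im = -x.im := rfl
    have h2 : (-x).re = -x.re := rfl
    rw [h1, h2]
    ring
  have hembneg : ∀ x : OO A B, emb (-x) = -emb x := by
    intro x
    rw [← Pool.Agent.MUXN.N_GJ.eHom_apply hc, ← Pool.Agent.MUXN.N_GJ.eHom_apply hc, map_neg]
  have heneg : ∀ x : OO A B, e (-x) = -e x := by
    intro x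
    have h1 := he.mul (-1) x
    rw [neg_one_mul, he.neg, neg_one_mul] at h1
    exact h1
  have htneg : ∀ x : b, t (-x) = t x := by
    intro x
    show e (-(x : OO A B)) * conj (emb (-(x : OO A B))) = e x * conj (emb (x : OO A B))
    rw [heneg, hembneg, map_neg, neg_mul_neg]
  have hqbneg : ∀ x : OO A B, qb b (-x) = qb b x := by
    intro x
    unfold qb
    rw [hnmneg]
  have hSneg : ∀ m, ∀ x ∈ S m, -x ∈ S m := by
    intro m x hx
    rw [hS] at hx ⊢
    show (qb b (-(x : OO A B))).toNat = m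
    rw [hqbneg, hx]
  have hqb0 : qb b (0 : OO A B) = 0 := by
    unfold qb nm
    simp
  have hS0 : ∀ m, m ≠ 0 → (0 : b) ∉ S m := by
    intro m hm h
    rw [hS] at h
    apply hm
    rw [← h]
    show (qb b (0 : OO A B)).toNat = 0
    rw [hqb0]
    rfl
  have hnmS : ∀ (m : ℕ) (x : b), x ∈ S m → nm (x : OO A B) = MUX.nI b * m := by
    intro m x hx
    rw [hS] at hx
    obtain ⟨h2, h3⟩ := q1 x x.2
    have h4 : qb b (x : OO A B) = m := by omega
    rw [h2, h4]
    rfl
  have hS00 : ∀ x ∈ S 0, t x = 0 := by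
    intro x hx
    have h1 := hnmS 0 x hx
    have h2 : (x : OO A B) = 0 := (a2 x).2.1.1 (by rw [h1]; simp)
    rw [htdef]
    beta_reduce
    rw [h2, (a2 0).1.2 rfl]
    simp
  set α : ℕ → ℂ := fun m => (1 / 2) * ∑ x ∈ S m, t x with hαdef
  have hα0 : α 0 = 0 := by
    rw [hαdef]
    beta_reduce
    rw [Finset.sum_eq_zero hS00, mul_zero]
  have hαn : ∀ m, m ≠ 0 → α m = ∑ x ∈ (S m).filter (fun x : b => PH (x : OO A B)), t x := by
    intro m hm
    rw [hαdef]
    beta_reduce
    rw [half_sum (S m) (hSneg m) (hS0 m hm) t htneg]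
    ring
  have htint : ∀ x : b, IsIntegral ℤ (t x) := by
    intro x
    show IsIntegral ℤ (e x * conj (emb (x : OO A B)))
    rw [hconj]
    refine IsIntegral.mul ?_ (emb_int hc _)
    by_cases h : e x = 0
    · rw [h]
      exact isIntegral_zero
    · exact IsIntegral.of_pow (n := r) (Nat.pos_of_ne_zero hr)
        (by rw [her x h]; exact isIntegral_one)
  refine ⟨α, ?_, ?_, ?_, ?_, ?_⟩
  · intro m
    by_cases hm : m = 0
    · rw [hm, hα0]
      exact isIntegral_zero
    · rw [hαn m hm]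
      exact IsIntegral.sum _ fun x _ => htint x
  · have hfin2 : (Set.range e ∪ {wC A B}).Finite := hfin.union (Set.finite_singleton _)
    have hfin3 : Finite ↑(Set.range e ∪ {wC A B}) := hfin2
    set K : IntermediateField ℚ ℂ := IntermediateField.adjoin ℚ (Set.range e ∪ {wC A B}) with hK
    have hKfd : FiniteDimensional ℚ K := by
      apply IntermediateField.finiteDimensional_adjoin
      rintro x (⟨y, rfl⟩ | hx)
      · by_cases h : e y = 0
        · rw [h]
          exact isIntegral_zero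
        · exact IsIntegral.of_pow (n := r) (Nat.pos_of_ne_zero hr)
            (by rw [her y h]; exact isIntegral_one)
      · rw [Set.mem_singleton_iff] at hx
        rw [hx]
        exact (Pool.Agent.MUXN.N_GJ.wC_int hc).tower_top
    have hKe : ∀ x, e x ∈ K := fun x =>
      IntermediateField.subset_adjoin ℚ _ (Or.inl ⟨x, rfl⟩)
    have hKw : wC A B ∈ K := IntermediateField.subset_adjoin ℚ _ (Or.inr rfl)
    have hKemb : ∀ x : OO A B, emb x ∈ K := fun x =>
      add_mem (intCast_mem _ _) (mul_mem (intCast_mem _ _) hKw)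
    refine ⟨K.toSubfield, ?_, ?_⟩
    · have h4 : NumberField K := ⟨⟩
      exact h4
    · intro m
      show α m ∈ K
      refine mul_mem (div_mem (one_mem _) (ofNat_mem K 2)) (sum_mem fun x _ => ?_)
      show e x * conj (emb (x : OO A B)) ∈ K
      rw [hconj]
      exact mul_mem (hKe _) (hKemb _)
  · intro hi
    have hbt : b = ⊤ := by rw [hbdef, hi, R.b0]
    have hn1 : MUX.nI b = 1 := by
      rw [hbt]
      unfold MUX.nI
      exact Nat.card_unique
    have h1mem : (1 : OO A B) ∈ b := by rw [hbt]; trivial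
    rw [hαn 1 one_ne_zero]
    have hfil : (S 1).filter (fun x : b => PH (x : OO A B)) = {⟨1, h1mem⟩} := by
      ext x
      rw [Finset.mem_filter, Finset.mem_singleton]
      constructor
      · rintro ⟨h1, h2⟩
        have h3 := hnmS 1 x h1
        rw [hn1] at h3
        rcases u1 x (by rw [h3]; norm_num) with h4 | h4
        · exact Subtype.ext h4
        · exfalso
          rw [h4] at h2
          have h5 : (-1 : OO A B).im = 0 := neg_zero
          have h6 : (-1 : OO A B).re = -1 := rfl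
          unfold PH at h2
          rw [h5, h6] at h2
          omega
      · intro h
        rw [h]
        constructor
        · rw [hS]
          show (qb b (1 : OO A B)).toNat = 1
          have h3 := (q1 1 h1mem).1
          have h4 : (MUX.nI b : ℤ) = 1 := by rw [hn1]; rfl
          have h5 : nm (1 : OO A B) = 1 := by
            unfold nm
            rw [QuadraticAlgebra.re_one, QuadraticAlgebra.im_one]
            ring
          have h6 : nm (1 : OO A B) = (MUX.nI b : ℤ) * qb b (1 : OO A B) := h3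
          rw [h4, h5, one_mul] at h6
          rw [← h6]
          rfl
        · unfold PH
          right
          exact ⟨QuadraticAlgebra.im_one, by
            show (0 : ℤ) < (1 : OO A B).re
            rw [QuadraticAlgebra.re_one]
            exact one_pos⟩
    rw [hfil, Finset.sum_singleton]
    show e 1 * conj (emb (1 : OO A B)) = 1
    rw [he.one, ← Pool.Agent.MUXN.N_GJ.eHom_apply hc, map_one, map_one, one_mul]
  · intro hi
    have hS1 : S 1 = ∅ := by
      apply Finset.eq_empty_of_forall_notMem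
      intro x hx
      have h1 := hnmS 1 x hx
      rw [Nat.cast_one, mul_one] at h1
      have h2 := u2 b hb x x.2 h1
      apply hi
      have hx0 : (x : OO A B) ≠ 0 := by
        intro h0
        rw [h0] at h1
        have h3 : nm (0 : OO A B) = 0 := by
          unfold nm
          simp
        rw [h3] at h1
        exact hnb (by exact_mod_cast h1.symm)
      have hone : (1 : OO A B) ≠ 0 := by
        intro h0
        apply hx0
        rw [← mul_one (x : OO A B), h0, mul_zero]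
      refine R.inj i R.i0 1 x hone hx0 ?_
      rw [R.b0]
      show sp (1 : OO A B) * b = sp (x : OO A B) * ⊤
      rw [← h2, Ideal.mul_top]
      show Ideal.span {(1 : OO A B)} * b = b
      rw [Ideal.span_singleton_one, Ideal.top_mul]
    show (1 / 2) * ∑ x ∈ S 1, t x = 0
    rw [hS1, Finset.sum_empty, mul_zero]
  · intro τ hτ
    have hsum := hTS A B (cqF hc) b hb e C hC τ hτ
    have hq : ∀ x : b, ((nm (x : OO A B) : ℤ) : ℂ) / ((MUX.nI b : ℕ) : ℂ) =
        ((qb b (x : OO A B) : ℤ) : ℂ) := by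
      intro x
      have h1 : nm (x : OO A B) = (MUX.nI b : ℤ) * qb b (x : OO A B) := (q1 x x.2).1
      rw [h1]
      push_cast
      field_simp
    set f : b → ℂ := fun x => e x * conj (emb (x : OO A B)) /
      (((nm (x : OO A B) : ℤ) : ℂ) / ((MUX.nI b : ℕ) : ℂ)) *
        Complex.exp (2 * Real.pi * Complex.I *
          (((nm (x : OO A B) : ℤ) : ℂ) / ((MUX.nI b : ℕ) : ℂ)) * τ) with hf
    have hfs : Summable f := by
      refine Summable.of_norm_bounded hsum.norm fun x => ?_
      rw [hf]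
      beta_reduce
      show _ ≤ ‖e x * conj (emb (x : OO A B)) * Complex.exp (2 * Real.pi * Complex.I *
          (((nm (x : OO A B) : ℤ) : ℂ) / ((MUX.nI b : ℕ) : ℂ)) * τ)‖
      rw [hq x, norm_mul, norm_mul (e x * conj (emb (x : OO A B))), norm_div]
      refine mul_le_mul_of_nonneg_right ?_ (norm_nonneg _)
      by_cases h0 : qb b (x : OO A B) = 0
      · rw [h0, Int.cast_zero, norm_zero, div_zero]
        exact norm_nonneg _
      · have h1 : 1 ≤ qb b (x : OO A B) := by
          have := (q1 x x.2).2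
          omega
        have h2 : (1 : ℝ) ≤ ‖((qb b (x : OO A B) : ℤ) : ℂ)‖ := by
          rw [Complex.norm_intCast]
          have h3 : (1 : ℝ) ≤ ((qb b (x : OO A B) : ℤ) : ℝ) := by exact_mod_cast h1
          exact h3.trans (le_abs_self _)
        exact div_le_self (norm_nonneg _) h2
    have hfib := hfs.hasSum.tsum_fiberwise (fun x : b => (qb b (x : OO A B)).toNat)
    have hfib2 := hfib.mul_left (1 / 2 : ℂ)
    have e1 : (fun m : ℕ => α m / m * Complex.exp (2 * Real.pi * Complex.I * τ) ^ m) =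
        fun m : ℕ => (1 / 2 : ℂ) * ∑' x : (fun x : b => (qb b (x : OO A B)).toNat) ⁻¹' {m},
          f x := by
      funext m
      have h1 : (fun x : b => (qb b (x : OO A B)).toNat) ⁻¹' {m} = ((S m : Finset b) : Set b) := by
        ext x
        rw [Finset.mem_coe, hS]
        rfl
      rw [h1, Finset.tsum_subtype' (S m) f, hαdef]
      beta_reduce
      rw [mul_div_assoc, mul_assoc]
      congr 1
      rw [div_mul_eq_mul_div, Finset.sum_mul, Finset.sum_div]
      refine Finset.sum_congr rfl fun x hx => ?_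
      have h2 : ((qb b (x : OO A B) : ℤ) : ℂ) = (m : ℂ) := by
        rw [hS] at hx
        have h3 := (q1 x x.2).2
        have h4 : qb b (x : OO A B) = m := by omega
        rw [h4]
        simp
      rw [hf, htdef]
      beta_reduce
      rw [hq x, h2, ← Complex.exp_nat_mul]
      rw [show 2 * (Real.pi : ℂ) * Complex.I * (m : ℂ) * τ =
        (m : ℂ) * (2 * Real.pi * Complex.I * τ) by ring]
      ring
    rw [e1]
    exact hfib2

open MUXY Pool.Agent.MUXN.Gdt in
theorem t_GDT {A B : ℤ} (h1 : Sq_QXP) (h2 : MUXT.Xs_FTI) (h3 : MUXF.Sx_CHI) (h4 : Sy_CON) (h5 : Sy_ALP)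
    (h6 : Sy_ALM) (h7 : Sy_FEC) (h8 : Sy_COP) (p : ℕ) (P : Ideal (OO A B))
    (V : ValuationSubring ℂ) (f : ℕ) (hS : SetH p A B P V f) (hT : TorX A B) (ι : Type)
    [hι : Finite ι] (R : Reps A B (p * f) ι) (e : OO A B → ℂ) (he : IsEI (idl f * cjI P) e)
    (r : ℕ) (hr : r ≠ 0) (her : ∀ x, e x ≠ 0 → e x ^ r = 1) (N' : ℕ) (hN : N' ≠ 0)
    (hNd : absD A B * ((p : ℤ) * f) ^ 2 ∣ (N' : ℤ)) :
    ∃ E : Set (OO A B → ℂ), e ∈ E ∧ GDat R E N' := by
  have hQ := hS.cq
  have hp0 : p ≠ 0 := hS.pp.ne_zero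
  set g : Ideal (OO A B) := idl f * cjI P with hg
  have hpc : ((p : ℕ) : OO A B) ∈ cjI P := by
    show starRingEnd (OO A B) ((p : ℕ) : OO A B) ∈ P
    rw [map_natCast]
    exact hS.hP.mem
  have hpf : ((p * f : ℕ) : OO A B) ∈ g := by
    rw [Nat.mul_comm, Nat.cast_mul]
    exact Ideal.mul_mem_mul (Ideal.mem_span_singleton_self _) hpc
  have hgb : g ≠ ⊥ := by
    intro h
    rw [h, Ideal.mem_bot] at hpf
    exact nat_ne _ (mul_ne_zero hp0 hS.f0) hpf
  have hgt : g ≠ ⊤ := by
    intro h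
    have h1 : g ≤ cjI P := Ideal.mul_le_right
    rw [h, top_le_iff] at h1
    have := hS.hP.prime
    have h2 : (cjI P).IsPrime := Ideal.IsPrime.comap _
    exact h2.ne_top h1
  have hcop : ∀ i, IsCoprime (MUX.sp ((MUX.nI (R.b i) : ℕ) : OO A B)) g :=
    h8 A B (p * f) ι R g 1 (by rw [pow_one]; exact hpf)
  set E : Set (OO A B → ℂ) := {e' | ∃ σ : ℂ ≃+* ℂ, e' = fun x => σ (e x)} with hE
  have hEI : ∀ e' ∈ E, IsEI g e' := by
    rintro e' ⟨σ, rfl⟩
    exact ei_conj he σ
  have hEr : ∀ e' ∈ E, ∀ x, e' x ≠ 0 → e' x ^ r = 1 := by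
    rintro e' ⟨σ, rfl⟩ x hx
    show σ (e x) ^ r = 1
    have hx' : e x ≠ 0 := by
      intro h0
      apply hx
      show σ (e x) = 0
      rw [h0, map_zero]
    rw [← map_pow, her x hx', map_one]
  have hEG : ∀ e' ∈ E, ∀ x y : OO A B, (((p * f : ℕ) : ℕ) : OO A B) ∣ x - y → e' x = e' y := by
    rintro e' he' x y ⟨z, hz⟩
    apply (hEI e' he').per
    rw [hz]
    exact Ideal.mul_mem_right _ _ hpf
  have hb : ∀ i, R.b i ≠ ⊥ := fun i => (R.nl i).b_ne
  have hNd' : -(B ^ 2 + 4 * A) * ((p * f : ℕ) : ℤ) ^ 2 ∣ (N' : ℤ) := by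
    have : -(B ^ 2 + 4 * A) * ((p * f : ℕ) : ℤ) ^ 2 = absD A B * (p * f) ^ 2 := by
      unfold absD
      push_cast
      ring
    rw [this]
    exact hNd
  have hF : ∀ e' ∈ E, ∀ i, _ := fun e' he' i =>
    (h2 A B hQ.hB hQ.neg (R.b i) (hb i) e' (p * f) (Nat.pos_of_ne_zero (mul_ne_zero hp0 hS.f0))
      (hEI e' he').mul (hEG e' he') (hEI e' he').neg).2 N' hN hNd'
  have hDN : absD A B ∣ (N' : ℤ) := dvd_trans (Dvd.intro _ rfl) hNd
  have hGN : ((p * f : ℕ) : ℤ) ∣ (N' : ℤ) := by
    refine dvd_trans ?_ hNd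
    exact ⟨absD A B * (p * f), by push_cast; ring⟩
  have hnu : ∀ e' ∈ E, ∀ d : ℤ, (N' : ℤ) ∣ d - 1 →
      (MUXT.chiQ A B d : ℂ) * e' (d : OO A B) = 1 := by
    intro e' he' d hd
    have h10 : MUXF.chiQ A B d = 1 := by
      have := (h3 A B (cqF hQ) 1 isCoprime_one_left).2.2 d (by
        rw [← dvd_neg, neg_sub]
        exact dvd_trans hDN hd)
      rw [this, chiQ_one]
    have h11 : e' (d : OO A B) = 1 := by
      rw [← (hEI e' he').one]
      apply (hEI e' he').per
      obtain ⟨t, ht⟩ := dvd_trans hGN hd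
      have h12 : (d : OO A B) - 1 = ((p * f : ℕ) : OO A B) * (t : OO A B) := by
        have := congrArg (fun z : ℤ => (z : OO A B)) ht
        push_cast at this
        push_cast
        exact this
      rw [h12]
      exact Ideal.mul_mem_right _ _ hpf
    have h13 : MUXT.chiQ A B d = 1 := h10
    rw [h13, h11]
    norm_num
  refine ⟨E, ⟨RingEquiv.refl ℂ, rfl⟩, ?_⟩
  refine
    { fin := (h7 A B e r hr her).1
      pos := Nat.pos_of_ne_zero hN
      add := ?_
      inv := ?_
      per := ?_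
      cusp := ?_
      qexp := ?_
      rat := ?_
      alg := ?_
      algo := ?_ }
  · intro e' _ i x y z
    unfold PhiI
    ring
  · intro e' he' i a b c d hdet hc hd x y
    have := (hF e' he' i).1.equiv a b c d hdet hc x y
    rw [hnu e' he' d hd, one_mul] at this
    exact this
  · intro e' he' i a b c d hdet hc hd τ hτ
    have := ((hF e' he' i).2.1 a b c d hdet hc τ hτ).2
    rw [hnu e' he' d hd, one_mul] at this
    exact this
  · intro e' he' i a b c d hdet
    obtain ⟨w, hw⟩ := (hF e' he' i).2.2 a b c d hdet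
    exact ⟨_, w, hw⟩
  · intro e' he' i
    exact h1 A B hQ (p * f) ι R g hgb e' (hEI e' he') r hr (hEr e' he') i
  · intro σ hσ e' he' i
    obtain ⟨-, j, C, -, hC0, hC⟩ := h4 A B hQ hT (p * f) ι R g e' hgb hgt (hEI e' he') hcop σ hσ i
    obtain ⟨τ, rfl⟩ := he'
    refine ⟨fun x => σ (τ (e x)), ⟨τ.trans σ, rfl⟩, j,
      C * σ (R.om R.i0 / R.om i) * (R.om j / R.om R.i0), fun x y => ?_⟩
    have ho : R.om R.i0 ≠ 0 := (R.nl R.i0).om_ne
    have hoj : R.om j ≠ 0 := (R.nl j).om_ne
    have hoi : R.om i ≠ 0 := (R.nl i).om_ne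
    have e1 : PhiI (R.b i) (fun x => τ (e x)) x y / R.om i =
        PhiI (R.b i) (fun x => τ (e x)) x y / R.om R.i0 * (R.om R.i0 / R.om i) := by
      field_simp
    rw [e1, map_mul, hC x y]
    field_simp
  · intro e' he' i x y
    exact (h5 A B hQ hT (p * f) ι hι R g e' hgb hgt (hEI e' he') hcop r hr (hEr e' he') i x y).1
  · intro i
    exact (h6 A B hQ hT (p * f) ι hι R i).2

/-- the hypotheses of Theorem G for the representatives: good ordinary reduction of the lattice `L_(i0)` -/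
theorem t_GX (hT : ∀ A B : ℤ, MUX.CQ A B → TorX A B) (hG : Sg_GTHX) (p : ℕ) (A B : ℤ)
    (P : Ideal (OO A B)) (V : ValuationSubring ℂ) (f : ℕ) (hS : SetH p A B P V f) (ι : Type)
    [Fintype ι] (R : Reps A B (p * f) ι) (hk : V.valuation (kap (R.L R.i0)) = 1)
    (hd : V.valuation (1 + 1728 * kap (R.L R.i0)) = 1) (e : OO A B → ℂ)
    (he : IsEI (idl f * cjI P) e) (wt : ι → ℂ) (hkk : V.valuation (wt R.i0) = 1) (N' : ℕ)
    (hN : N' ≠ 0) (hN' : absD A B * ((p : ℤ) * f) ^ 2 ∣ (N' : ℤ)) :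
    ∃ a b c d : ℤ, a * d - b * c = 1 ∧ (N' : ℤ) ∣ c ∧ (N' : ℤ) ∣ d - 1 ∧
      1 ≤ V.valuation (PhiK R e wt ∞ (mob a b c d ∞) / R.om R.i0) := by
  have hq : idl (A := A) (B := B) f * cjI P ≠ ⊥ :=
    (ty_IDE MUXF.xf_ALG p A B P V f hS).2.2.2.2.1
  obtain ⟨r, hr, her⟩ := MUXHY.y_ROU A B hS.cq _ e hq he
  obtain ⟨E, heE, hE⟩ := t_GDT (t_QXP MUXF.xf_NIM MUXF.xf_ALG MUXF.xf_IDL MUXF.xf_QB MUXF.xf_BDD
    MUXF.xf_TSM) MUXT.main_FTI MUXF.xf_CHI MUXY.z_CON MUXY.z_ALP MUXY.z_ALM
    MUXY.z_FEC MUXY.z_COP p P V f hS (hT A B hS.cq) ι R e he r hr her N' hN hN'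
  have hka : IsAlgebraic ℚ (kap (R.L R.i0)) := by
    have hdom : IsDomain (OO A B) := (MUXF.xf_ALG A B (cqF hS.cq)).2.2.2.2
    have hne : (⊤ : Ideal (OO A B)) ≠ ⊥ := bot_ne_top.symm
    have hmem : kap (R.L R.i0) ∈ (RF (⊤ : Ideal (OO A B)) : IntermediateField (kk A B) ℂ) :=
      IntermediateField.subset_adjoin _ _ ⟨_, _, _, R.nl R.i0, Or.inl rfl⟩
    exact Pool.Agent.MUXW.GRB.alg_RF hS.cq (hT A B hS.cq) ⊤ hne hmem
  obtain ⟨a, b, c, d, h4, h5, h6, h7⟩ := hG A B hS.cq (p * f) ι R E N' hE p hS.pp P hS.hP V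
    hS.hV hka hk hd e heE wt (fun h => by
      rw [ValuationSubring.mem_nonunits_iff] at h
      exact absurd hkk h.ne)
  refine ⟨a, b, c, d, h4, h5, h6, ?_⟩
  rw [ValuationSubring.mem_nonunits_iff] at h7
  exact not_lt.mp h7

end

end Pool.Agent.TWG
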