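import Pool.Agent.MUX.HYAll

/-!
# TWG (helper19): block HY of MUX for every prime `p` (Theorem C of MP_b78433_nt)

`SetH` replaces `SetP` (no condition on `p`). The statements and the proofs are those of `Pool/Agent/MUX/StHX2.lean`
and `HY_*.lean`.
-/

set_option autoImplicit false

namespace Pool.Agent.TWG

open _root_.MU3 Pool.Agent.MU3A Pool.Agent.MU3B Pool.Agent.MU3F Pool.Agent.MUX Pool.Agent.MUXH
  Pool.Agent.MuSym OnePoint
open Pool.Agent.MUXHY (toCQ toEI toLI nI_eq cjI_eq PhiI_eq PP N0X Sy_RAT Sy_ROU)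
open scoped ComplexConjugate

noncomputable section

/-- `p` a prime number which splits in `k`, `P` a prime ideal above `p`, `V` above `P`, `p` does not divide `f`, `D` divides `f` -/
structure SetH (p : ℕ) (A B : ℤ) (P : Ideal (OO A B)) (V : ValuationSubring ℂ) (f : ℕ) : Prop where
  cq : CQ A B
  pp : p.Prime
  hP : IsPN p P
  hV : OverI V P
  f0 : f ≠ 0
  fp : ¬ p ∣ f
  fD : absD A B ∣ (f : ℤ)

/-- VAL for every prime `p` -/
def Sy_VAL : Prop :=
  ∀ (p : ℕ) (A B : ℤ) (P : Ideal (OO A B)) (V : ValuationSubring ℂ) (f : ℕ)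
    (_ : SetH p A B P V f),
    p.Prime ∧ V.valuation (p : ℂ) < 1 ∧ (∀ x : OO A B, V.valuation (emb x) ≤ 1) ∧
    (∀ x : OO A B, V.valuation (emb x) = 1 ↔ x ∉ P) ∧
    (∀ n : ℤ, V.valuation (n : ℂ) ≤ 1) ∧
    (∀ n : ℤ, ¬ (p : ℤ) ∣ n → V.valuation (n : ℂ) = 1) ∧
    (∀ (r : ℕ) (z : ℂ), r ≠ 0 → z ^ r = 1 → V.valuation z = 1) ∧
    V.valuation (f : ℂ) = 1 ∧ V.valuation (absD A B : ℂ) = 1 ∧ 0 < absD A B ∧
    ¬ (p : ℤ) ∣ absD A B

/-- IDE for every prime `p` -/
def Sy_IDE : Prop :=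
  ∀ (p : ℕ) (A B : ℤ) (P : Ideal (OO A B)) (V : ValuationSubring ℂ) (f : ℕ)
    (_ : SetH p A B P V f),
    P ≠ ⊥ ∧ P.IsMaximal ∧ IsCoprime P (cjI P) ∧ IsCoprime P (idl (A := A) (B := B) f) ∧
    idl f * cjI P ≠ ⊥ ∧ ((p * f : ℕ) : OO A B) ∈ idl f * cjI P ∧ idl f * cjI P ≤ cjI P ∧
    idl f * cjI P ≤ sp ((absD A B : ℤ) : OO A B) ∧ ((p : ℕ) : OO A B) ∈ cjI P ∧
    ∀ (h : ℕ) (al : OO A B), 1 ≤ h → P ^ h = sp al →
      al ≠ 0 ∧ IsCoprime (sp al) (idl f * cjI P) ∧ star al ∉ P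

/-- CHR for every prime `p` -/
def Sy_CHR : Prop :=
  ∀ (p : ℕ) (A B : ℤ) (P : Ideal (OO A B)) (V : ValuationSubring ℂ) (f : ℕ)
    (_ : SetH p A B P V f) (e : OO A B → ℂ) (_ : IsEI (idl f * cjI P) e),
    nuX e 1 = 1 ∧ nuX e p = 0 ∧ (∀ d d', nuX e (d * d') = nuX e d * nuX e d') ∧
    (∀ d d' : ℤ, ((p * N0X A B f : ℕ) : ℤ) ∣ d - d' → nuX e d = nuX e d') ∧
    (∀ d, V.valuation (nuX e d) ≤ 1)

/-- EIG for every prime `p` -/
def Sy_EIG : Prop :=
  ∀ (p : ℕ) (A B : ℤ) (P : Ideal (OO A B)) (V : ValuationSubring ℂ) (f : ℕ)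
    (_ : SetH p A B P V f) (e : OO A B → ℂ) (_ : IsEI (idl f * cjI P) e) (h : ℕ)
    (al : OO A B) (_ : 1 ≤ h) (_ : P ^ h = sp al),
    V.valuation (e al * conj (emb al)) = 1 ∧ IsAlgebraic ℚ (e al * conj (emb al))

/-- SYM for every prime `p` -/
def Sy_SYM : Prop :=
  ∀ (p : ℕ) (A B : ℤ) (P : Ideal (OO A B)) (V : ValuationSubring ℂ) (f : ℕ)
    (_ : SetH p A B P V f) (ι : Type) (_ : Fintype ι) (R : Reps A B (p * f) ι)
    (e : OO A B → ℂ) (_ : IsEI (idl f * cjI P) e) (kk : ι → ℂ),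
    (∀ i, IsSym (p ^ (1 + 1) * N0X A B f) (nuX e) (PP R P e kk i)) ∧
    (∀ i x y, hecke p (nuX e) (PP R P e kk i) x y = PP R P e kk (i + 1) x y) ∧
    ∀ (h : ℕ) (al : OO A B), 1 ≤ h → P ^ h = sp al → ∀ x y,
      PP R P e kk h x y = e al * conj (emb al) * PP R P e kk 0 x y

/-- ALF for every prime `p` -/
def Sy_ALF : Prop :=
  ∀ (p : ℕ) (A B : ℤ) (P : Ideal (OO A B)) (V : ValuationSubring ℂ) (f : ℕ)
    (_ : SetH p A B P V f) (ι : Type) (_ : Fintype ι) (R : Reps A B (p * f) ι)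
    (e : OO A B → ℂ) (_ : IsEI (idl f * cjI P) e) (kk : ι → ℂ) (_ : ∀ i, IsAlgebraic ℚ (kk i)),
    (∀ x y, IsAlgebraic ℚ (PP R P e kk 0 x y)) ∧
    ∃ T : Finset ℂ, ∀ x y, PP R P e kk 0 x y ∈ AddSubgroup.closure (T : Set ℂ)

/-- PRX for every prime `p` -/
def Sy_PRX : Prop :=
  ∀ (p : ℕ) (A B : ℤ) (P : Ideal (OO A B)) (V : ValuationSubring ℂ) (f : ℕ)
    (_ : SetH p A B P V f) (ι : Type) (_ : Fintype ι) (R : Reps A B (p * f) ι)
    (e : OO A B → ℂ) (_ : IsEI (idl f * cjI P) e) (kk : ι → ℂ) (s : ℂ),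
    ∃ (q : ℕ) (c : ℕ → ℂ), q ≠ 0 ∧ (∀ t, V.valuation (c t) ≤ 1) ∧ ∀ x y : OnePoint ℚ,
      ∑ t ∈ Finset.range q, c t * sgnPart s (PP R P e kk 0) (mob q t 0 q x) (mob q t 0 q y) =
        PP R P e kk 0 x y

theorem ty_VAL : Sy_VAL := by
  intro p A B P V f hS
  have hQ : MUXF.CQ A B := toCQ hS.cq
  have hp : p.Prime := hS.pp
  have hpv : V.valuation (p : ℂ) < 1 := by
    have h1 := (hS.hV _).2 hS.hP.mem
    have h2 : emb ((p : ℕ) : OO A B) = (p : ℂ) := by
      have h3 := MUXF.AlgX.emb_intCast hQ (p : ℤ)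
      rw [Int.cast_natCast, Int.cast_natCast] at h3
      exact h3
    rw [h2] at h1
    exact (ValuationSubring.mem_nonunits_iff _).1 h1
  have hle : ∀ x : OO A B, V.valuation (emb x) ≤ 1 := fun x =>
    (ValuationSubring.valuation_le_one_iff _ _).2 (MUXHY.Val.emb_mem hQ V x)
  have hpf : ¬ (p : ℤ) ∣ (f : ℤ) := fun h => hS.fp (Int.natCast_dvd_natCast.1 h)
  have hpD : ¬ (p : ℤ) ∣ absD A B := fun h => hpf (h.trans hS.fD)
  refine ⟨hp, hpv, hle, ?_, MUXHY.Val.int_le V, MUXHY.Val.int_one hp hpv, MUXHY.Val.root_one V, ?_, ?_, ?_, hpD⟩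
  · intro x
    constructor
    · intro h hx
      have h1 := (hS.hV x).2 hx
      have h2 : V.valuation (emb x) < 1 := (ValuationSubring.mem_nonunits_iff _).1 h1
      rw [h] at h2
      exact lt_irrefl _ h2
    · intro hx
      refine le_antisymm (hle x) (not_lt.1 fun hlt => hx ?_)
      exact (hS.hV x).1 ((ValuationSubring.mem_nonunits_iff _).2 hlt)
  · have h := MUXHY.Val.int_one hp hpv (f : ℤ) hpf
    rwa [Int.cast_natCast] at h
  · exact MUXHY.Val.int_one hp hpv _ hpD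
  · exact MUXF.AlgX.absD_pos hQ

open MUXHY.Ide in
theorem ty_IDE (h1 : MUXF.Sx_ALG) : Sy_IDE := by
  intro p A B P V f hs
  have hcq := toCQ hs.cq
  obtain ⟨-, -, hint, hfin, hdom⟩ := h1 A B hcq
  have hpr := hs.hP.prime
  have hpp : p.Prime := hs.pp
  have hndvd : ¬ (p : ℤ) ∣ B ^ 2 + 4 * A := by
    intro h
    apply hs.fp
    have h1 : (p : ℤ) ∣ absD A B := by
      have h2 : absD A B = -(B ^ 2 + 4 * A) := rfl
      rw [h2]
      exact (dvd_neg).2 h
    exact Int.natCast_dvd_natCast.1 (h1.trans hs.fD)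
  have hnat0 : ∀ n : ℕ, n ≠ 0 → (n : OO A B) ≠ 0 := by
    intro n hn h0
    have e1 := (hint (n : ℤ)).2
    have e2 : (((n : ℕ) : ℤ) : OO A B) = (n : OO A B) := by push_cast; rfl
    rw [e2, h0] at e1
    have e3 : nm (0 : OO A B) = 0 := by
      have := (hint 0).2
      simpa using this
    rw [e3] at e1
    have e4 : (n : ℤ) = 0 := by
      by_contra hne
      have := pow_ne_zero 2 hne
      exact this e1.symm
    exact hn (by exact_mod_cast e4)
  have hpP := hs.hP.mem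
  -- the integer `r`
  obtain ⟨r, hr1, hr2⟩ := Pool.Agent.MUXV.tq_DGI A B P p hpp hs.hP.norm
  have c1 : P ≠ ⊥ := by
    intro h
    rw [h] at hpP
    exact hnat0 p hpp.ne_zero (by simpa using hpP)
  have c2 : P.IsMaximal := by
    have := hfin P c1
    exact Ideal.Quotient.maximal_of_isField P (Finite.isField_of_domain (OO A B ⧸ P))
  have hpC : (p : OO A B) ∈ cjI P := nat_mem_cjI hpP
  have c3 : IsCoprime P (cjI P) := by
    have hx : (⟨-r, 1⟩ : OO A B) ∈ P := (hr2 _).2 (by simp)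
    have hy : (⟨-(B - r), 1⟩ : OO A B) ∈ cjI P := by
      rw [mem_cjI]
      refine (hr2 _).2 ?_
      simp
    have hcop : IsCoprime (B - 2 * r) (p : ℤ) := by
      have hp' := Nat.prime_iff_prime_int.1 hpp
      refine ((hp'.coprime_iff_not_dvd).2 ?_).symm
      intro hd
      apply hndvd
      have e1 : B ^ 2 + 4 * A = (B - 2 * r) * (B - 2 * r) - 4 * (r ^ 2 - B * r - A) := by ring
      rw [e1]
      exact dvd_sub (hd.mul_right _) (hr1.mul_left _)
    obtain ⟨u, v, huv⟩ := hcop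
    rw [Ideal.isCoprime_iff_exists]
    refine ⟨(u : OO A B) * ⟨-r, 1⟩ + (v : OO A B) * (p : OO A B),
      add_mem (P.mul_mem_left _ hx) (P.mul_mem_left _ hpP),
      -((u : OO A B) * ⟨-(B - r), 1⟩), neg_mem ((cjI P).mul_mem_left _ hy), ?_⟩
    have e1 : (⟨-r, 1⟩ : OO A B) = ⟨-(B - r), 1⟩ + ((B - 2 * r : ℤ) : OO A B) := by
      apply QuadraticAlgebra.ext
      · simp only [QuadraticAlgebra.re_add, QuadraticAlgebra.re_intCast, Int.cast_id]
        ring
      · simp only [QuadraticAlgebra.im_add, QuadraticAlgebra.im_intCast, add_zero]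
    have e2 : (u : OO A B) * ((B - 2 * r : ℤ) : OO A B) + (v : OO A B) * (p : OO A B) = 1 := by
      have := congrArg (fun n : ℤ => (n : OO A B)) huv
      simpa using this
    rw [e1]
    linear_combination e2
  have c4 : IsCoprime P (idl (A := A) (B := B) f) := by
    have hcop : IsCoprime (p : ℤ) (f : ℤ) := by
      rw [Nat.isCoprime_iff_coprime]
      exact (Nat.Prime.coprime_iff_not_dvd hpp).2 hs.fp
    obtain ⟨u, v, huv⟩ := hcop
    rw [Ideal.isCoprime_iff_exists]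
    refine ⟨(u : OO A B) * (p : OO A B), P.mul_mem_left _ hpP, (v : OO A B) * (f : OO A B),
      Ideal.mul_mem_left _ _ (Ideal.mem_span_singleton_self _), ?_⟩
    have := congrArg (fun n : ℤ => (n : OO A B)) huv
    simpa using this
  have c6 : ((p * f : ℕ) : OO A B) ∈ idl f * cjI P := by
    have e : ((p * f : ℕ) : OO A B) = (f : OO A B) * (p : OO A B) := by push_cast; ring
    rw [e]
    exact Ideal.mul_mem_mul (Ideal.mem_span_singleton_self _) hpC
  refine ⟨c1, c2, c3, c4, ?_, c6, Ideal.mul_le_right, ?_, hpC, ?_⟩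
  · intro h
    rw [h] at c6
    exact hnat0 (p * f) (mul_ne_zero hpp.ne_zero hs.f0) (by simpa using c6)
  · refine Ideal.mul_le_left.trans ?_
    rw [Ideal.span_singleton_le_span_singleton]
    obtain ⟨k, hk⟩ := hs.fD
    refine ⟨(k : OO A B), ?_⟩
    have := congrArg (fun n : ℤ => (n : OO A B)) hk
    simpa using this
  · intro h al hh hPal
    have hcc : IsCoprime (P ^ h) (cjI P) := IsCoprime.pow_left c3
    refine ⟨?_, ?_, ?_⟩
    · rintro rfl
      have e1 : ((p : OO A B)) ^ h ∈ P ^ h := Ideal.pow_mem_pow hpP h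
      rw [hPal] at e1
      have e2 : (((p ^ h : ℕ) : ℕ) : OO A B) = 0 := by
        push_cast
        simpa using e1
      exact hnat0 (p ^ h) (pow_ne_zero _ hpp.ne_zero) e2
    · rw [← hPal]
      exact (IsCoprime.pow_left c4).mul_right hcc
    · intro hal
      have e1 : sp al ≤ cjI P := by
        rw [Ideal.span_singleton_le_iff_mem]
        exact hal
      rw [hPal, Ideal.isCoprime_iff_sup_eq, sup_eq_right.2 e1] at hcc
      have e2 : (1 : OO A B) ∈ cjI P := by rw [hcc]; trivial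
      rw [mem_cjI, star_one] at e2
      exact hpr.ne_top ((Ideal.eq_top_iff_one _).2 e2)

open MUXHY.Chr in
theorem ty_CHR (h1 : Sy_VAL) (h2 : Sy_IDE) (h3 : Sy_ROU) (h4 : MUXF.Sx_CHI) : Sy_CHR := by
  intro p A B P V f H e he
  obtain ⟨hpp, -, -, -, vZ, -, vru, -, -, hDpos, -⟩ := h1 p A B P V f H
  obtain ⟨-, hPmax, -, -, hg0, hpf, hgcj, hgD, hpcj, -⟩ := h2 p A B P V f H
  have hcq : CQ A B := H.cq
  obtain ⟨r, hr0, hr⟩ := h3 A B hcq _ e hg0 he
  have hcjtop : cjI P ≠ ⊤ := by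
    intro h
    have h5 : (1 : OO A B) ∈ cjI P := h ▸ Submodule.mem_top
    have h6 : (starRingEnd (OO A B)) 1 ∈ P := h5
    rw [map_one] at h6
    exact hPmax.ne_top ((Ideal.eq_top_iff_one P).2 h6)
  have ev : ∀ x, V.valuation (e x) ≤ 1 := by
    intro x
    by_cases hx : e x = 0
    · rw [hx, map_zero]
      exact zero_le_one
    · exact (vru r (e x) hr0 (hr x hx)).le
  -- integers on which `e` does not vanish are prime to `D`
  have hcopD : ∀ d : ℤ, e (d : OO A B) ≠ 0 → IsCoprime d (absD A B) := by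
    intro d hd
    have h5 := (he.supp _).1 hd
    apply coprime_int (A := A) (B := B)
    rw [← Ideal.isCoprime_span_singleton_iff]
    rw [Ideal.isCoprime_iff_sup_eq] at h5 ⊢
    exact top_le_iff.1 (h5 ▸ sup_le_sup_left hgD _)
  refine ⟨?_, ?_, ?_, ?_, ?_⟩
  · unfold nuX
    have : ((1 : ℤ) : OO A B) = 1 := by push_cast; rfl
    rw [chiX_one, this, he.one]
    norm_num
  · unfold nuX
    have h5 : e (((p : ℤ)) : OO A B) = 0 := by
      by_contra hne
      have h6 := (he.supp _).1 hne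
      rw [Ideal.isCoprime_iff_sup_eq] at h6
      apply hcjtop
      rw [← top_le_iff, ← h6]
      refine sup_le ?_ hgcj
      rw [Ideal.span_singleton_le_iff_mem]
      have h7 : (((p : ℤ)) : OO A B) = ((p : ℕ) : OO A B) := by push_cast; rfl
      rw [h7]
      exact hpcj
    rw [h5, mul_zero]
  · intro d d'
    unfold nuX
    have : ((d * d' : ℤ) : OO A B) = (d : OO A B) * (d' : OO A B) := by push_cast; rfl
    rw [chiX_mul, this, he.mul]
    push_cast
    ring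
  · intro d d' hd
    have hDnat : (((absD A B).toNat : ℕ) : ℤ) = absD A B := Int.toNat_of_nonneg hDpos.le
    have hd2 : (p : ℤ) * (absD A B * (f : ℤ) ^ 2) ∣ d - d' := by
      have h5 : ((p * N0X A B f : ℕ) : ℤ) = (p : ℤ) * (absD A B * (f : ℤ) ^ 2) := by
        unfold N0X
        push_cast
        rw [hDnat]
      rwa [h5] at hd
    obtain ⟨t, ht⟩ := hd2
    have hD : absD A B ∣ d - d' := ⟨(p : ℤ) * (f : ℤ) ^ 2 * t, by rw [ht]; ring⟩
    unfold nuX
    by_cases hcop : IsCoprime d (absD A B)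
    · have h5 : chiX A B d' = chiX A B d := ((h4 A B (toCQ hcq) d hcop).2.2 d' hD)
      have h6 : e (d : OO A B) = e (d' : OO A B) := by
        apply he.per
        have h7 : (d : OO A B) - (d' : OO A B) =
            (((absD A B * f * t : ℤ)) : OO A B) * ((p * f : ℕ) : OO A B) := by
          have h8 : (d : OO A B) - (d' : OO A B) = ((d - d' : ℤ) : OO A B) := by push_cast; rfl
          rw [h8, ht]
          push_cast
          ring
        rw [h7]
        exact Ideal.mul_mem_left _ _ hpf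
      rw [h5, h6]
    · have h5 : e (d : OO A B) = 0 := by
        by_contra hne
        exact hcop (hcopD d hne)
      have h6 : e (d' : OO A B) = 0 := by
        by_contra hne
        apply hcop
        obtain ⟨s, hs⟩ := hD
        have h7 : d = d' + absD A B * s := by linarith
        rw [h7]
        exact (IsCoprime.add_mul_left_left_iff).2 (hcopD d' hne)
      rw [h5, h6, mul_zero, mul_zero]
  · intro d
    unfold nuX
    rw [map_mul]
    exact mul_le_one' (vZ _) (ev _)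

theorem ty_EIG (h1 : Sy_VAL) (h2 : Sy_IDE) (h3 : Sy_ROU) (h4 : MUXF.Sx_ALG) : Sy_EIG := by
  intro p A B P V f hS e he h al hh hal
  have hCQ : CQ A B := hS.cq
  obtain ⟨-, -, -, hv2, -, -, hv5, -⟩ := h1 p A B P V f hS
  obtain ⟨-, -, -, -, i5, -, -, -, -, i10⟩ := h2 p A B P V f hS
  obtain ⟨-, halc, hals⟩ := i10 h al hh hal
  obtain ⟨r, hr, hre⟩ := h3 A B hCQ _ e i5 he
  have hne : e al ≠ 0 := (he.supp al).2 halc
  have hroot := hre al hne
  have hcj : conj (emb al) = emb (star al) :=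
    ((h4 A B (toCQ hCQ)).2.1 al).2.2.2.2.2.1.symm
  constructor
  · rw [map_mul, hv5 r (e al) hr hroot, hcj, (hv2 (star al)).2 hals, one_mul]
  · refine IsAlgebraic.mul ?_ ?_
    · have h5 : IsAlgebraic ℚ (e al ^ r) := by
        rw [hroot]; exact isAlgebraic_one
      exact h5.of_pow (Nat.pos_of_ne_zero hr)
    · rw [hcj]
      exact MUXHY.Eig.alg_emb h4 hCQ _

theorem ty_SYM (h1 : Sy_IDE) (h2 : MUXT.Xs_FTI) (h3 : MUXF.Sx_HU) (h4 : MUXF.Sx_PRI)
    (h5 : MUXF.Sx_NIM) : Sy_SYM := by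
  intro p A B P V f hS ι _ R e he kk
  obtain ⟨hP0, hPm, -, -, hg0, hpf, hgP, -, -, hal⟩ := h1 p A B P V f hS
  have hcq : CQ A B := hS.cq
  obtain ⟨hmul, -, -, -⟩ := h5 A B (toCQ hcq)
  have hp : p.Prime := hS.pp
  have hP : ∀ i : ℕ, P ^ i ≠ ⊥ := by
    intro i
    induction i with
    | zero =>
      rw [pow_zero, Ideal.one_eq_top]
      intro h0
      apply hP0
      rw [eq_bot_iff, ← h0]
      exact le_top
    | succ i ih => exact (hmul _ _ ih hP0).2
  have hb : ∀ (c : ι) (i : ℕ), R.b c * P ^ i ≠ ⊥ := fun c i =>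
    (hmul _ _ (R.nl c).b_ne (hP i)).2
  have hD : 0 < absD A B := by
    have := hcq.neg
    unfold absD
    omega
  have hDc : ((absD A B).toNat : ℤ) = -(B ^ 2 + 4 * A) := by
    rw [Int.toNat_of_nonneg hD.le]
    rfl
  refine ⟨fun i => ?_, fun i x y => ?_, ?_⟩
  · refine MUXHY.Sym.isSym_lin (fun c => ?_) (fun c => kk c / e ((nI (R.b c) : ℕ) : OO A B)) (R.om R.i0)
    have h6 := h2 A B hcq.hB hcq.neg (R.b c * P ^ i) (hb c i) e (p * f)
      (Nat.mul_pos hp.pos (Nat.pos_of_ne_zero hS.f0)) he.mul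
      (fun x y hxy => he.per x y (Ideal.mem_of_dvd _ hxy hpf)) he.neg
    have hN : p ^ (1 + 1) * N0X A B f ≠ 0 := by
      unfold N0X
      have h7 : (absD A B).toNat ≠ 0 := by omega
      exact mul_ne_zero (pow_ne_zero _ hp.ne_zero) (mul_ne_zero h7 (pow_ne_zero _ hS.f0))
    have hdiv : -(B ^ 2 + 4 * A) * ((p * f : ℕ) : ℤ) ^ 2 ∣ ((p ^ (1 + 1) * N0X A B f : ℕ) : ℤ) := by
      unfold N0X
      refine ⟨1, ?_⟩
      push_cast
      rw [hDc]
      ring
    exact (h6.2 _ hN hdiv).1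
  · have h6 := MUXHY.Sym.hecke_lin p (nuX e) (fun c => PhiI (R.b c * P ^ i) e)
      (fun c => kk c / e ((nI (R.b c) : ℕ) : OO A B)) (R.om R.i0) x y
    have h7 : hecke p (nuX e) (PP R P e kk i) x y = (∑ c, kk c / e ((nI (R.b c) : ℕ) : OO A B) *
        hecke p (nuX e) (PhiI (R.b c * P ^ i) e) x y) / R.om R.i0 := h6
    rw [h7]
    unfold PP
    congr 1
    refine Finset.sum_congr rfl fun c _ => ?_
    have h8 := (h3 A B (toCQ hcq) (R.b c * P ^ i) (idl f * cjI P) P e p (hb c i) hg0 (toEI he)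
      hS.hP.prime hS.hP.norm hp hgP).2 x y
    have h9 : R.b c * P ^ (i + 1) = R.b c * P ^ i * P := by rw [pow_succ, mul_assoc]
    rw [h9]
    congr 1
  · intro h al hh hPh x y
    obtain ⟨hal0, -, -⟩ := hal h al hh hPh
    unfold PP
    rw [← mul_div_assoc, Finset.mul_sum]
    congr 1
    refine Finset.sum_congr rfl fun c _ => ?_
    have h8 := (h4 A B (toCQ hcq) (R.b c) (idl f * cjI P) e al (R.nl c).b_ne (toEI he) hal0).2 x y
    have h9 : PhiI (sp al * R.b c) e x y = e al * conj (emb al) * PhiI (R.b c) e x y := h8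
    rw [hPh, mul_comm (R.b c) (sp al), h9, pow_zero, mul_one]
    ring

theorem ty_ALF (h1 : Sy_IDE) (h2 : Sy_ROU) (h3 : Sy_RAT) (h4 : MUXT.Xs_FTI) (h5 : MUXF.Sx_F7) :
    Sy_ALF := by
  intro p A B P V f hS ι _ R e he kk hkk
  have hc : CQ A B := hS.cq
  obtain ⟨_, _, _, _, hg, hpf, _, _, _, _⟩ := h1 p A B P V f hS
  obtain ⟨r, hr, hr1⟩ := h2 A B hc _ e hg he
  have hp : p ≠ 0 := hS.pp.ne_zero
  refine ⟨fun x y => ?_, ?_⟩
  · rw [MUXHY.Alf.PP_zero]
    have hcoef : ∀ c, kk c / e ((nI (R.b c) : ℕ) : OO A B) / R.om R.i0 * PhiI (R.b c) e x y =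
        kk c / e ((nI (R.b c) : ℕ) : OO A B) * (PhiI (R.b c) e x y / R.om c) *
          (R.om c / R.om R.i0) := by
      intro c
      have h0 : R.om c ≠ 0 := (R.nl c).om_ne
      field_simp
    rw [Finset.sum_congr rfl fun c _ => hcoef c]
    rw [← mem_algebraicClosure_iff]
    apply sum_mem
    intro c _
    have hrat := h3 A B hc (R.b c) (R.L c) (R.om c) (R.nl c)
    refine mul_mem (mul_mem (div_mem ?_ ?_) ?_) ?_
    · exact mem_algebraicClosure_iff.2 (hkk c)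
    · rw [mem_algebraicClosure_iff]
      by_cases h0 : e ((nI (R.b c) : ℕ) : OO A B) = 0
      · rw [h0]; exact isAlgebraic_zero
      · have h6 := hr1 _ h0
        apply IsAlgebraic.of_pow (Nat.pos_of_ne_zero hr)
        rw [h6]
        exact isAlgebraic_one
    · exact mem_algebraicClosure_iff.2 (hrat.2 _ e hg he x y)
    · exact mem_algebraicClosure_iff.2 (hrat.1 _ _ _ (R.nl R.i0))
  · have hD : (0 : ℤ) < -(B ^ 2 + 4 * A) := by have := hc.neg; linarith
    obtain ⟨D, hDe⟩ : ∃ D : ℕ, (D : ℤ) = -(B ^ 2 + 4 * A) :=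
      ⟨(-(B ^ 2 + 4 * A)).toNat, Int.toNat_of_nonneg hD.le⟩
    have hD0 : D ≠ 0 := by
      rintro rfl
      simp at hDe
      omega
    have hG : 0 < p * f := Nat.mul_pos (Nat.pos_of_ne_zero hp) (Nat.pos_of_ne_zero hS.f0)
    have hN : D * (p * f) ^ 2 ≠ 0 := mul_ne_zero hD0 (pow_ne_zero _ hG.ne')
    have hex : ∀ c, ∃ S : Finset ℂ, ∀ x y, PhiI (R.b c) e x y ∈ AddSubgroup.closure (S : Set ℂ) := by
      intro c
      have h7 := h4 A B hc.hB hc.neg (R.b c) (R.nl c).b_ne e (p * f) hG he.mul ?_ he.neg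
      · have h8 := (h7.2 (D * (p * f) ^ 2) hN ?_).1
        · exact h5 A B (toCQ hc) (R.b c) _ e (R.nl c).b_ne hg (toEI he) _ hN h8
        · rw [← hDe]
          push_cast
          exact dvd_refl _
      · intro x y hxy
        apply he.per
        obtain ⟨z, hz⟩ := hxy
        rw [hz]
        exact Ideal.mul_mem_right _ _ hpf
    choose S hSm using hex
    classical
    refine ⟨Finset.univ.biUnion fun c => (S c).image fun s =>
      (kk c / e ((nI (R.b c) : ℕ) : OO A B) / R.om R.i0) * s, fun x y => ?_⟩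
    rw [MUXHY.Alf.PP_zero]
    apply sum_mem
    intro c _
    refine AddSubgroup.closure_mono ?_ (MUXHY.Alf.mul_mem_closure (S c) _ _ (hSm c x y))
    intro z hz
    obtain ⟨s, hs, rfl⟩ := hz
    simp only [Finset.coe_biUnion, Finset.coe_image, Set.mem_iUnion]
    exact ⟨c, Finset.mem_coe.2 (Finset.mem_univ c), s, hs, rfl⟩

theorem ty_PRX (h1 : Sy_VAL) (h2 : Sy_IDE) (h3 : MUXF.Sx_PHX) (h4 : MUXF.Sx_PRJ) : Sy_PRX := by
  intro p A B P V f hS ι _ R e he kk s
  obtain ⟨-, -, -, -, -, -, hr, -, hvD, hD, -⟩ := h1 p A B P V f hS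
  obtain ⟨-, -, -, -, hg, -, -, hgD, -, -⟩ := h2 p A B P V f hS
  obtain ⟨φ, hφ, hper, hφ2⟩ := h3 A B (toCQ hS.cq)
  have hqD : (((absD A B).toNat : ℕ) : ℤ) = absD A B := Int.toNat_of_nonneg hD.le
  have hq : (absD A B).toNat ≠ 0 := by omega
  have hv : V.valuation (((absD A B).toNat : ℕ) : ℂ) = 1 := by
    have h5 : (((absD A B).toNat : ℕ) : ℂ) = ((absD A B : ℤ) : ℂ) := by
      rw [← Int.cast_natCast (R := ℂ) (absD A B).toNat, hqD]
    rw [h5]; exact hvD
  refine ⟨(absD A B).toNat, fun t => (1 / ((absD A B).toNat : ℂ)) *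
    ∑ n ∈ Finset.range (absD A B).toNat, φ n * ex (-(t * n) / (absD A B).toNat), hq,
    fun t => MUXHY.Prx.val_le V hr _ hq hv φ hφ t, fun x y => ?_⟩
  have key : ∀ c, ∑ t ∈ Finset.range (absD A B).toNat, ((1 / ((absD A B).toNat : ℂ)) *
      ∑ n ∈ Finset.range (absD A B).toNat, φ n * ex (-(t * n) / (absD A B).toNat)) *
      sgnPart s (PhiI (R.b c) e) (mob (absD A B).toNat t 0 (absD A B).toNat x)
        (mob (absD A B).toNat t 0 (absD A B).toNat y) = PhiI (R.b c) e x y := by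
    intro c
    exact h4 A B (toCQ hS.cq) (R.b c) _ e (R.nl c).b_ne hg (toEI he) _ φ hq
      (fun n => by rw [hqD]; exact hper n)
      (hφ2 (R.b c) _ e (R.nl c).b_ne (toEI he) hgD) s x y
  have e1 : PP R P e kk 0 x y = (∑ c, kk c / e ((nI (R.b c) : ℕ) : OO A B) *
      PhiI (R.b c) e x y) / R.om R.i0 := by
    unfold PP
    simp only [pow_zero, mul_one]
  rw [e1]
  simp only [MUXHY.Prx.sgn_PP]
  simp only [← mul_div_assoc]
  rw [← Finset.sum_div]
  congr 1
  simp only [Finset.mul_sum (s := (Finset.univ : Finset ι))]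
  rw [Finset.sum_comm]
  refine Finset.sum_congr rfl fun c _ => ?_
  rw [← key c, Finset.mul_sum]
  refine Finset.sum_congr rfl fun t _ => ?_
  ring

end

end Pool.Agent.TWG
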