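import Pool.Agent.TWG.GG

/-!
# TWG (helper19): the hypotheses of the abstract part for every prime `p` which splits in `k`

`t_HYP`: `HypA` for the symbols `PP R P e wt` of an odd character `e` modulo `f cjI P` and weights of valuation `1`.
-/

set_option autoImplicit false

namespace Pool.Agent.TWG

open _root_.MU3 Pool.Agent.MU3A Pool.Agent.MU3B Pool.Agent.MU3F Pool.Agent.MUX Pool.Agent.MUXH
  Pool.Agent.MuSym OnePoint
open Pool.Agent.MUXHY (toCQ toEI toLI nI_eq cjI_eq PhiI_eq PP N0X Sy_RAT Sy_ROU)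
open scoped ComplexConjugate

noncomputable section

/-- Theorem G without hypotheses -/
theorem g_GX (p : ℕ) (A B : ℤ)
    (P : Ideal (OO A B)) (V : ValuationSubring ℂ) (f : ℕ) (hS : SetH p A B P V f) (ι : Type)
    [Fintype ι] (R : Reps A B (p * f) ι) (hk : V.valuation (kap (R.L R.i0)) = 1)
    (hd : V.valuation (1 + 1728 * kap (R.L R.i0)) = 1) (e : OO A B → ℂ)
    (he : IsEI (idl f * cjI P) e) (wt : ι → ℂ) (hkk : V.valuation (wt R.i0) = 1) (N' : ℕ)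
    (hN : N' ≠ 0) (hN' : absD A B * ((p : ℤ) * f) ^ 2 ∣ (N' : ℤ)) :
    ∃ a b c d : ℤ, a * d - b * c = 1 ∧ (N' : ℤ) ∣ c ∧ (N' : ℤ) ∣ d - 1 ∧
      1 ≤ V.valuation (PhiK R e wt ∞ (mob a b c d ∞) / R.om R.i0) :=
  t_GX MUXC.c_TOR (MUXN.tg_GTHX (MUXN.tg_GJ (MUXN.tg_BIN MU3Q.wq MUXN.z_GP MUXN.z_DV) MUXN.z_RET
      MUXN.z_NFE MUXN.tg_LOC MUXN.z_FGG) MUXN.z_DSC MUXN.z_ZL MUXN.z_FK MUXN.z_FGG)
    p A B P V f hS ι R hk hd e he wt hkk N' hN hN'

theorem g_VAL : Sy_VAL := ty_VAL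
theorem g_IDE : Sy_IDE := ty_IDE MUXF.xf_ALG
theorem g_CHR : Sy_CHR := ty_CHR g_VAL g_IDE MUXHY.y_ROU MUXF.xf_CHI
theorem g_EIG : Sy_EIG := ty_EIG g_VAL g_IDE MUXHY.y_ROU MUXF.xf_ALG
theorem g_SYM : Sy_SYM := ty_SYM g_IDE MUXT.main_FTI MUXF.xf_HU MUXF.xf_PRI MUXF.xf_NIM
theorem g_RAT : Sy_RAT := by
  intro A B hCQ b L om hL
  exact MUXY.z_ALQ A B hCQ (MUXC.c_TOR A B hCQ) b L om hL
theorem g_ALF : Sy_ALF := ty_ALF g_IDE MUXHY.y_ROU g_RAT MUXT.main_FTI MUXF.xf_F7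
theorem g_PRX : Sy_PRX := ty_PRX g_VAL g_IDE MUXF.xf_PHX MUXF.xf_PRJ

open MUXHY.Brg in
theorem t_HYP (p : ℕ) (A B : ℤ) (P : Ideal (OO A B)) (V : ValuationSubring ℂ) (f : ℕ)
    (hS : SetH p A B P V f) (ι : Type) [hι : Fintype ι] (R : Reps A B (p * f) ι)
    (hk : V.valuation (kap (R.L R.i0)) = 1)
    (hd : V.valuation (1 + 1728 * kap (R.L R.i0)) = 1) (e : OO A B → ℂ)
    (he : IsEI (idl f * cjI P) e) (wt : ι → ℂ) (hka : ∀ i, IsAlgebraic ℚ (wt i))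
    (hkv : ∀ i, V.valuation (wt i) = 1) (s : ℤ) (hs : s = 1 ∨ s = -1) (h : ℕ) (al : OO A B)
    (hh : 1 ≤ h) (hal : P ^ h = sp al) :
    HypA p V (N0X A B f) 1 h (e al * conj (emb al)) (nuX e) (PP R P e wt) s := by
  obtain ⟨pp, vp, -, -, -, -, vr, -, -, D0, pD⟩ := g_VAL p A B P V f hS
  obtain ⟨-, -, -, -, gne, pfg, -, -, -, -⟩ := g_IDE p A B P V f hS
  obtain ⟨r, r0, hr⟩ := MUXHY.y_ROU A B hS.cq _ e gne he
  obtain ⟨nu1, nup, num, nuper, nuv⟩ := g_CHR p A B P V f hS e he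
  obtain ⟨va, alga⟩ := g_EIG p A B P V f hS e he h al hh hal
  obtain ⟨sym, hec, per⟩ := g_SYM p A B P V f hS ι hι R e he wt
  obtain ⟨alg, fin⟩ := g_ALF p A B P V f hS ι hι R e he wt hka
  have hN0c := N0X_cast (A := A) (B := B) f D0
  have hN0 : N0X A B f ≠ 0 := by
    intro h0
    rw [h0] at hN0c
    have : (0 : ℤ) < absD A B * (f : ℤ) ^ 2 :=
      mul_pos D0 (pow_pos (by exact_mod_cast Nat.pos_of_ne_zero hS.f0) 2)
    rw [← hN0c] at this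
    exact absurd this (by norm_num)
  have hcop : p.Coprime (N0X A B f) := by
    rw [Nat.Prime.coprime_iff_not_dvd pp]
    intro hd
    have h1 : (p : ℤ) ∣ absD A B * (f : ℤ) ^ 2 := by
      rw [← hN0c]
      exact_mod_cast hd
    rcases (Nat.prime_iff_prime_int.mp pp).dvd_or_dvd h1 with h2 | h2
    · exact pD h2
    · exact hS.fp (by exact_mod_cast (Nat.prime_iff_prime_int.mp pp).dvd_of_dvd_pow h2)
  have hke : ∀ c, V.valuation (e ((nI (R.b c) : ℕ) : OO A B)) = 1 := fun c =>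
    vr r _ r0 (hr _ (e_nI R he pfg c))
  refine { pp := pp, vp := vp, N0 := hN0, cop := hcop, h1 := hh, va := va, alga := alga,
           nu1 := nu1, nup := nup, num := num, nuper := nuper, nuv := nuv, sym := sym,
           hec := hec, per := per h al hh hal, alg := alg, fin := fin, s1 := hs, G := ?_,
           prj := g_PRX p A B P V f hS ι hι R e he wt (s : ℂ) }
  intro N' hN' hdvd
  have hd' : absD A B * ((p : ℤ) * f) ^ 2 ∣ (N' : ℤ) := by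
    have h0 : ((p ^ (1 + 1) * N0X A B f : ℕ) : ℤ) ∣ (N' : ℤ) := Int.natCast_dvd_natCast.mpr hdvd
    push_cast at h0
    rw [hN0c] at h0
    refine dvd_trans (dvd_of_eq ?_) h0
    ring
  obtain ⟨a, b, c, d, hdet, hc, hd1, hv⟩ := g_GX p A B P V f hS ι R hk hd e he
    (fun c => wt c / e ((nI (R.b c) : ℕ) : OO A B))
    (by simp only [map_div₀, hkv, hke, div_one]) N' hN' hd'
  refine ⟨a, b, c, d, hdet, hc, hd1, ?_⟩
  rw [PP_zero]
  exact hv

end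

end Pool.Agent.TWG
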