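import Pool.Agent.TWG.GAU
import Pool.Agent.TWG.HYP

/-!
# TWG, module SUM (helper19): the double sum over two primitive characters of the values of the symbol
-/

set_option autoImplicit false

namespace Pool.Agent.TWG

open _root_.MU3 Pool.Agent.MU3A Pool.Agent.MU3B Pool.Agent.MU3F Pool.Agent.MuSym OnePoint
open scoped ComplexConjugate

noncomputable section

section PHV

open Pool.Agent.MUXF Pool.Agent.MUXF.F5x Pool.Agent.MU3F.F5aux

/-- the values of the symbol at the cusps `β / M` (the first half of the proof of `MUX/F_F5.lean`) -/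
theorem t_PHV (A B : ℤ) (hAB : CQ A B) (b : Ideal (OO A B)) (L : PeriodPair) (Om : ℂ)
    (hL : IsLI b L Om) (g : Ideal (OO A B)) (e : OO A B → ℂ) (he : IsEI g e) (m M : ℕ)
    (hm0 : m ≠ 0) (hmg : (m : OO A B) ∈ g) (hM0 : M ≠ 0) (hMm : M ∣ m)
    (hcop : (nI b).Coprime m) : e ((nI b : ℕ) : OO A B) ≠ 0 ∧
    ∀ β : ℕ, PhiI b e ∞ (((β / M : ℚ) : ℚ) : OnePoint ℚ) =
      (Om * nI b / (2 * m)) * (e ((nI b : ℕ) : OO A B)) * sumMod (m : OO A B) (fun x =>
        ex (β * (nI b * nm x) / M) * (e x * ee L (Om * nI b * emb x / m))) := by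
  classical
  have h2 := xf_IDL
  have h4 := xf_QB
  have h6 := xf_CNV
  have h7 := xf_F4
  have h8 := b_PER
  obtain ⟨hal, hx, hz, hfin, hdom⟩ := xf_ALG A B hAB
  have hb : b ≠ ⊥ := hL.b_ne
  obtain ⟨hN0, -⟩ := h2 A B hAB b hb
  obtain ⟨-, hq2, hq3⟩ := h4 A B hAB b hb
  have hmC : (m : ℂ) ≠ 0 := by exact_mod_cast hm0
  have hMC : (M : ℂ) ≠ 0 := by exact_mod_cast hM0
  have hNC : ((nI b : ℕ) : ℂ) ≠ 0 := by exact_mod_cast hN0
  have hOm := hL.om_ne
  have hembN : ∀ n : ℕ, emb ((n : ℕ) : OO A B) = n := by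
    intro n
    have := (hz n).1
    rw [Int.cast_natCast] at this
    rw [this]
    push_cast
    rfl
  have hmO : ((m : ℕ) : OO A B) ≠ 0 := by
    intro h0
    have h9 := ((hx _).1).2 h0
    rw [hembN] at h9
    exact hmC h9
  have hspan : Ideal.span {((m : ℕ) : OO A B)} ≠ ⊥ := by
    rw [Ne, Ideal.span_singleton_eq_bot]
    exact hmO
  have hF := hfin _ hspan
  -- `e (N b)` is not zero
  have hbez : ∃ u v : ℤ, u * (nI b : ℤ) + v * (m : ℤ) = 1 := by
    have h9 : IsCoprime ((nI b : ℕ) : ℤ) (m : ℤ) := Nat.isCoprime_iff_coprime.2 hcop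
    obtain ⟨u, v, huv⟩ := h9
    exact ⟨u, v, huv⟩
  have heN : e ((nI b : ℕ) : OO A B) ≠ 0 := by
    rw [he.supp]
    rw [Ideal.isCoprime_iff_exists]
    obtain ⟨u, v, huv⟩ := hbez
    refine ⟨(u : OO A B) * ((nI b : ℕ) : OO A B),
      Ideal.mul_mem_left _ _ (Ideal.mem_span_singleton_self _), (v : OO A B) * (m : OO A B),
      Ideal.mul_mem_left _ _ hmg, ?_⟩
    have h9 := congrArg (fun z : ℤ => (z : OO A B)) huv
    push_cast at h9
    exact h9
  -- periodicity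
  set F : ℤ → OO A B → ℂ := fun β x => e x * ex (β * qb b x / M) * ee L (Om * emb x / m) with hFd
  have hper : ∀ β : ℤ, ∀ x ∈ b, ∀ y ∈ b, F β (x + m * y) = F β x := by
    intro β x hxb y hyb
    rw [hFd]
    have e1 : e (x + m * y) = e x := by
      apply he.per
      rw [add_sub_cancel_left]
      exact Ideal.mul_mem_right _ _ hmg
    have e2 : ex (β * qb b (x + m * y) / M) = ex (β * qb b x / M) := by
      obtain ⟨k, hk⟩ := hq2 x hxb y hyb m
      rw [Int.cast_natCast] at hk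
      obtain ⟨j, hj⟩ := hMm
      have hMq : (M : ℚ) ≠ 0 := by exact_mod_cast hM0
      have h9 : ((β : ℚ) * ((qb b (x + m * y) : ℤ) : ℚ) / (M : ℚ)) =
          β * qb b x / M + ((β * j * k : ℤ) : ℚ) := by
        rw [hk, hj]
        push_cast
        field_simp
      rw [h9, ex_add, (ex_eq_one _).2 ⟨_, rfl⟩, mul_one]
    have e3 : ee L (Om * emb (x + (m : OO A B) * y) / m) = ee L (Om * emb x / m) := by
      have h9 : Om * emb (x + (m : OO A B) * y) / m = Om * emb x / m + Om * emb y := by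
        rw [(hal _ _).2.1, (hal _ _).1, hembN]
        field_simp
      rw [h9]
      exact (h8 L).1 _ _ ((hL.mem _).2 ⟨y, hyb, rfl⟩)
    dsimp only
    rw [e1, e2, e3]
  -- values of the symbol
  have hPhi : ∀ β : ℕ, PhiI b e ∞ (((β / M : ℚ) : ℚ) : OnePoint ℚ) =
      (Om * nI b / (2 * m)) * (e ((nI b : ℕ) : OO A B)) * sumMod (m : OO A B) (fun x =>
        ex (β * (nI b * nm x) / M) * (e x * ee L (Om * nI b * emb x / m))) := by
    intro β
    have h9 : PhiI b e ∞ (((β / M : ℚ) : ℚ) : OnePoint ℚ) = 0 - IvI b e ((β : ℚ) / M) := rfl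
    have h10 := (h7 A B hAB b L Om hL g e he m M hm0 hmg hM0 hMm (β : ℤ)).2
    have h11 := h6 A B hAB b m hb hm0 hcop (F β) (hper β)
    rw [Int.cast_natCast] at h10
    have h12 : (fun x => e x * ex ((β : ℚ) * qb b x / M) * ee L (Om * emb x / m)) = F β := by
      rw [hFd]
      dsimp only
      rw [Int.cast_natCast]
    rw [h9, h10, h12, h11]
    have h13 : (fun x : OO A B => F β (((nI b : ℕ) : OO A B) * x)) = fun x =>
        (e ((nI b : ℕ) : OO A B)) * (ex (β * (nI b * nm x) / M) *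
          (e x * ee L (Om * nI b * emb x / m))) := by
      funext x
      rw [hFd]
      dsimp only
      rw [he.mul, hq3, (hal _ _).1, hembN]
      push_cast
      rw [show Om * (((nI b : ℕ) : ℂ) * emb x) / m = Om * nI b * emb x / m by ring]
      ring
    rw [h13, sm_mul]
    ring
  exact ⟨heN, hPhi⟩

end PHV

open Pool.Agent.MUX
open Pool.Agent.MUXHY (toCQ toEI toLI nI_eq cjI_eq PhiI_eq PP N0X)

lemma sm_const {A B : ℤ} (I : OO A B) [Finite (OO A B ⧸ Ideal.span {I})] (s : Finset ℕ)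
    (F : ℕ → OO A B → ℂ) :
    ∑ b ∈ s, sumMod I (F b) = sumMod I (fun x => ∑ b ∈ s, F b x) :=
  (Pool.Agent.MUXF.F5x.sm_sum I s F).symm

/-- (SUM) the double sum over two primitive characters -/
theorem t_SUM (A B : ℤ) (hc : MUX.CQ A B) (n : ℕ) (ι : Type) [Fintype ι] (R : Reps A B n ι)
    (P g : Ideal (OO A B)) (e : OO A B → ℂ) (he : MUX.IsEI g e) (wt : ι → ℂ) (m q r : ℕ)
    (hm : m ≠ 0) (hmg : (m : OO A B) ∈ g) (hqr : q * r ∣ m)
    (hcop : ∀ i, (MUX.nI (R.b i)).Coprime m) [NeZero q] [NeZero r]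
    (ψ : DirichletCharacter ℂ q) (hψ : ψ.IsPrimitive) (χ : DirichletCharacter ℂ r)
    (hχ : χ.IsPrimitive) :
    ∑ b ∈ Finset.range q, ∑ c ∈ Finset.range r, ψ (b : ZMod q) * χ (c : ZMod r) *
      PP R P e wt 0 ∞ (((b : ℚ) / q + (c : ℚ) / r : ℚ) : OnePoint ℚ) =
    gaussSum ψ ZMod.stdAddChar * gaussSum χ ZMod.stdAddChar / (2 * m) *
      ∑ i, wt i * muX R i * sumMod (m : OO A B) (fun x =>
        e x * ψ⁻¹ ((nm x * MUX.nI (R.b i) : ℤ) : ZMod q) *
          χ⁻¹ ((nm x * MUX.nI (R.b i) : ℤ) : ZMod r) * ee (R.L i) (pt R m i x)) := by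
  have hQ := toCQ hc
  obtain ⟨hal, hx, hz, hfin, hdom⟩ := MUXF.xf_ALG A B hQ
  have hq0 : q ≠ 0 := NeZero.ne q
  have hr0 : r ≠ 0 := NeZero.ne r
  have hM0 : q * r ≠ 0 := mul_ne_zero hq0 hr0
  have hmC : (m : ℂ) ≠ 0 := by exact_mod_cast hm
  have hqQ : (q : ℚ) ≠ 0 := by exact_mod_cast hq0
  have hrQ : (r : ℚ) ≠ 0 := by exact_mod_cast hr0
  have hmO : ((m : ℕ) : OO A B) ≠ 0 := by
    intro h0
    have h9 := ((hx _).1).2 h0
    have h10 := (hz m).1
    rw [Int.cast_natCast, Int.cast_natCast] at h10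
    rw [h10] at h9
    exact hmC h9
  have hspan : Ideal.span {((m : ℕ) : OO A B)} ≠ ⊥ := by
    rw [Ne, Ideal.span_singleton_eq_bot]
    exact hmO
  have hF := hfin _ hspan
  have homi : ∀ i, R.om i ≠ 0 := fun i => (R.nl i).om_ne
  -- the values of the symbols
  have hval : ∀ (i : ι) (β : ℕ), wt i / e ((MUX.nI (R.b i) : ℕ) : OO A B) *
      MUX.PhiI (R.b i * P ^ 0) e ∞ (((β / ((q * r : ℕ) : ℚ) : ℚ)) : OnePoint ℚ) / R.om R.i0 =
      wt i * muX R i / (2 * m) * sumMod (m : OO A B) (fun x =>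
        ex (β * (MUX.nI (R.b i) * nm x) / ((q * r : ℕ) : ℚ)) *
          (e x * ee (R.L i) (pt R m i x))) := by
    intro i β
    obtain ⟨h1, h2⟩ := t_PHV A B hQ (R.b i) (R.L i) (R.om i) (toLI (R.nl i).toIsLI) g e
      (toEI he) m (q * r) hm hmg hM0 hqr (hcop i)
    have h3 := h2 β
    have h1' : e ((MUX.nI (R.b i) : ℕ) : OO A B) ≠ 0 := h1
    rw [pow_zero, mul_one]
    have h4 : MUX.PhiI (R.b i) e ∞ (((β / ((q * r : ℕ) : ℚ) : ℚ)) : OnePoint ℚ) =
        (R.om i * MUX.nI (R.b i) / (2 * m)) * (e ((MUX.nI (R.b i) : ℕ) : OO A B)) *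
          sumMod (m : OO A B) (fun x =>
        ex (β * (MUX.nI (R.b i) * nm x) / ((q * r : ℕ) : ℚ)) *
          (e x * ee (R.L i) (pt R m i x))) := h3
    rw [h4]
    unfold muX
    have := homi R.i0
    field_simp
  have hPP : ∀ β : ℕ, PP R P e wt 0 ∞ (((β / ((q * r : ℕ) : ℚ) : ℚ)) : OnePoint ℚ) =
      ∑ i, wt i * muX R i / (2 * m) * sumMod (m : OO A B) (fun x =>
        ex (β * (MUX.nI (R.b i) * nm x) / ((q * r : ℕ) : ℚ)) *
          (e x * ee (R.L i) (pt R m i x))) := by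
    intro β
    unfold PP
    rw [Finset.sum_div]
    exact Finset.sum_congr rfl fun i _ => hval i β
  -- the inner sums
  have hin : ∀ k : ℤ, ∑ b ∈ Finset.range q, ∑ c ∈ Finset.range r, ψ (b : ZMod q) *
      χ (c : ZMod r) * ex ((((b * r + c * q : ℕ) : ℚ)) * k / ((q * r : ℕ) : ℚ)) =
      (gaussSum ψ ZMod.stdAddChar * gaussSum χ ZMod.stdAddChar) *
        (ψ⁻¹ (k : ZMod q) * χ⁻¹ (k : ZMod r)) := by
    intro k
    have h1 := Gau.shift ψ hψ k
    have h2 := Gau.shift χ hχ k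
    have h3 : (gaussSum ψ ZMod.stdAddChar * gaussSum χ ZMod.stdAddChar) *
        (ψ⁻¹ (k : ZMod q) * χ⁻¹ (k : ZMod r)) =
        (ψ⁻¹ (k : ZMod q) * gaussSum ψ ZMod.stdAddChar) *
          (χ⁻¹ (k : ZMod r) * gaussSum χ ZMod.stdAddChar) := by ring
    rw [h3, ← h1, ← h2, Finset.sum_mul_sum]
    refine Finset.sum_congr rfl fun b _ => Finset.sum_congr rfl fun c _ => ?_
    have h4 : (((b * r + c * q : ℕ) : ℚ)) * k / ((q * r : ℕ) : ℚ) =
        (((b * k : ℤ) : ℚ) / q) + (((c * k : ℤ) : ℚ) / r) := by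
      push_cast
      field_simp
    rw [h4, Pool.Agent.MU3F.F5aux.ex_add]
    ring
  have hstep : ∀ b ∈ Finset.range q, ∀ c ∈ Finset.range r, ψ (b : ZMod q) * χ (c : ZMod r) *
      PP R P e wt 0 ∞ (((b : ℚ) / q + (c : ℚ) / r : ℚ) : OnePoint ℚ) =
      ∑ i, wt i * muX R i / (2 * m) * sumMod (m : OO A B) (fun x =>
        (ψ (b : ZMod q) * χ (c : ZMod r) *
        ex ((((b * r + c * q : ℕ) : ℚ)) * ((nm x * MUX.nI (R.b i) : ℤ)) / ((q * r : ℕ) : ℚ))) *
          (e x * ee (R.L i) (pt R m i x))) := by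
    intro b _ c _
    have h1 : ((b : ℚ) / q + (c : ℚ) / r : ℚ) =
        ((b * r + c * q : ℕ) : ℚ) / ((q * r : ℕ) : ℚ) := by
      push_cast
      field_simp
    rw [h1, hPP, Finset.mul_sum]
    refine Finset.sum_congr rfl fun i _ => ?_
    rw [mul_left_comm, ← Pool.Agent.MUXF.F5x.sm_mul]
    congr 2
    funext x
    rw [← mul_assoc]
    congr 3
    push_cast
    ring
  rw [Finset.sum_congr rfl fun b hb => Finset.sum_congr rfl fun c hc => hstep b hb c hc]
  have hcomm : ∀ G : ℕ → ℕ → ι → ℂ, ∑ b ∈ Finset.range q, ∑ c ∈ Finset.range r, ∑ i, G b c i =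
      ∑ i, ∑ b ∈ Finset.range q, ∑ c ∈ Finset.range r, G b c i := by
    intro G
    have h1 : ∀ b ∈ Finset.range q, ∑ c ∈ Finset.range r, ∑ i, G b c i =
        ∑ i, ∑ c ∈ Finset.range r, G b c i := fun b _ => Finset.sum_comm
    rw [Finset.sum_congr rfl h1]
    exact Finset.sum_comm
  rw [hcomm, Finset.mul_sum]
  refine Finset.sum_congr rfl fun i _ => ?_
  have hpull : ∀ (c : ℂ) (G : ℕ → ℕ → ℂ), ∑ b ∈ Finset.range q, ∑ d ∈ Finset.range r,
      c * G b d = c * ∑ b ∈ Finset.range q, ∑ d ∈ Finset.range r, G b d := by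
    intro c G
    rw [Finset.mul_sum]
    exact Finset.sum_congr rfl fun b _ => (Finset.mul_sum _ _ _).symm
  rw [hpull, Finset.sum_congr rfl fun b _ => sm_const (m : OO A B) (Finset.range r) _, sm_const]
  have hfun : (fun x : OO A B => ∑ b ∈ Finset.range q, ∑ c ∈ Finset.range r,
      (ψ (b : ZMod q) * χ (c : ZMod r) *
        ex ((((b * r + c * q : ℕ) : ℚ)) * ((nm x * MUX.nI (R.b i) : ℤ)) / ((q * r : ℕ) : ℚ))) *
          (e x * ee (R.L i) (pt R m i x))) =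
      fun x => (gaussSum ψ ZMod.stdAddChar * gaussSum χ ZMod.stdAddChar) *
        (e x * ψ⁻¹ ((nm x * MUX.nI (R.b i) : ℤ) : ZMod q) *
          χ⁻¹ ((nm x * MUX.nI (R.b i) : ℤ) : ZMod r) * ee (R.L i) (pt R m i x)) := by
    funext x
    have h5 := hin (nm x * MUX.nI (R.b i) : ℤ)
    simp only [← Finset.sum_mul]
    rw [h5]
    ring
  rw [hfun, Pool.Agent.MUXF.F5x.sm_mul]
  ring

end

end Pool.Agent.TWG
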